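import Pool.Agent.H35.TA.Core

/-!
# The shape of a coordinate has few bits given a near place and the heights of the tied coordinates

`shp_few`: given also the rounded shapes of the tied coordinates. `ta_all`: only the heights of the
tied coordinates (field `tA`, `tB` of the nested cuts).
-/

set_option autoImplicit false

namespace Pool.TA35

open Finset Real MvPolynomial
open Pool.Agent.H49.Ent Pool.Agent.H32.Dense Pool.STK Pool.STAT Pool.MIC.Frm Pool.MIC7 Pool.FRM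
open Pool.MIC Pool.MicA Pool.GSD
open Pool.BFL (Pl Pb)
open Pool.TIE (Dat dg)

/-- A polynomial with few rounded coefficients. -/
theorem few_cf {Ω Y : Type} [Fintype Ω] {q : Ω → ℝ} (hq : IsLaw q) {m d : ℕ} (X b B : ℕ)
    (F : Ω → Pl m) (y : Ω → Y) (good : Ω → Prop) {η : ℝ}
    (hd : ∀ ω, 0 < q ω → (F ω).totalDegree ≤ d)
    (hb : ∀ ω, 0 < q ω → ∀ α, |coeff α (F ω)| ≤ 2 ^ b)
    (hg : ∀ ω ω', 0 < q ω → 0 < q ω' → good ω → good ω' → y ω = y ω' →
      ∀ α, 2 ^ X * |coeff α (F ω) - coeff α (F ω')| + 1 ≤ B)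
    (hη : Pb q (fun ω => ¬ good ω) ≤ η) :
    CH q (fun ω => rnd X (F ω)) y ≤ Real.log 2 +
      ((Pool.Agent.H36.KBX.bx m d).card * Real.log (2 * B + 1) +
      η * ((Pool.Agent.H36.KBX.bx m d).card *
        ((X + b + 1 : ℕ) * Real.log 2 + 2 * Real.log 2))) := by
  classical
  obtain ⟨N, hN⟩ : ∃ N : ℕ, N = (Pool.Agent.H36.KBX.bx m d).card := ⟨_, rfl⟩
  have e : Fin N ≃ (Pool.Agent.H36.KBX.bx m d) := by
    rw [hN]
    exact (Pool.Agent.H36.KBX.bx m d).equivFin.symm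
  obtain ⟨dgt, hdgt⟩ : ∃ dgt : Ω → Fin N → ℤ, dgt = fun ω k =>
    ⌊(2 : ℝ) ^ X * coeff (e k : Fin m →₀ ℕ) (F ω)⌋ := ⟨_, rfl⟩
  obtain ⟨g, hgd⟩ : ∃ g : Ω → Bool, g = fun ω => decide (good ω) := ⟨_, rfl⟩
  -- the good bit
  have h0 := CH_le_add hq.nonneg (fun ω => rnd X (F ω)) g y
  have h1 : CH q g y ≤ Real.log 2 := by
    refine (CH_le_card hq.nonneg hq.sum_one g y (fun _ => (univ : Finset Bool))
      fun ω _ => mem_univ _).trans ?_
    rw [Ex_const hq.sum_one, Finset.card_univ, Fintype.card_bool]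
    norm_num
  -- the digits
  have h2 : CH q (fun ω => rnd X (F ω)) (fun ω => (g ω, y ω)) ≤ CH q dgt (fun ω => (g ω, y ω)) := by
    refine CH_mono_left hq.nonneg fun ω ω' p1 p2 h => ?_
    have h3 : dgt ω = dgt ω' := (Prod.ext_iff.1 h).1
    ext α
    rw [coeff_rnd, coeff_rnd]
    by_cases hα : α ∈ Pool.Agent.H36.KBX.bx m d
    · have h4 := congrFun h3 (e.symm ⟨α, hα⟩)
      simp only [hdgt, Equiv.apply_symm_apply] at h4
      rw [h4]
    · have h5 : ∀ ω, 0 < q ω → coeff α (F ω) = 0 := fun ω hω => by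
        by_contra hne
        exact hα (Pool.Agent.H36.KBX.support_bx (F ω) (hd ω hω) (mem_support_iff.2 hne))
      rw [h5 ω p1, h5 ω' p2]
  have h3 := Pool.UP35.few_of_good hq N (X + b + 1) B dgt ∅ (fun ω => (g ω, y ω)) good
    (η := η) (fun ω hω l => by
      have a1 := hb ω hω (e l : Fin m →₀ ℕ)
      have a2 : |((dgt ω l : ℤ) : ℝ)| ≤ 2 ^ (X + b + 1) := by
        rw [hdgt]
        have b1 := Int.floor_le ((2 : ℝ) ^ X * coeff (e l : Fin m →₀ ℕ) (F ω))
        have b2 := Int.lt_floor_add_one ((2 : ℝ) ^ X * coeff (e l : Fin m →₀ ℕ) (F ω))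
        have b3 : |(2 : ℝ) ^ X * coeff (e l : Fin m →₀ ℕ) (F ω)| ≤ 2 ^ X * 2 ^ b := by
          rw [abs_mul, abs_of_pos (by positivity : (0 : ℝ) < 2 ^ X)]
          exact mul_le_mul_of_nonneg_left a1 (by positivity)
        have b4 : (1 : ℝ) ≤ 2 ^ X * 2 ^ b := one_le_mul_of_one_le_of_one_le
          (one_le_pow₀ (by norm_num)) (one_le_pow₀ (by norm_num))
        rw [pow_succ, pow_add]
        rw [abs_le] at b3 ⊢
        constructor <;> linarith [b3.1, b3.2]
      have e4 : |((dgt ω l : ℤ) : ℝ)| = ((|dgt ω l| : ℤ) : ℝ) := by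
        rw [Int.cast_abs]
      rw [e4] at a2
      exact_mod_cast a2) (fun ω ω' p1 p2 p3 p4 _ l => by
      have q1 := Prod.ext_iff.1 p4
      have q2 : good ω' := by
        have q3 : g ω = g ω' := q1.1
        rw [hgd] at q3
        simp only [p3, decide_true] at q3
        exact of_decide_eq_true q3.symm
      have a1 := hg ω ω' p1 p2 p3 q2 q1.2 (e l : Fin m →₀ ℕ)
      have a2 : |((dgt ω l - dgt ω' l : ℤ) : ℝ)| ≤ B := by
        rw [hdgt]
        have b1 := Int.floor_le ((2 : ℝ) ^ X * coeff (e l : Fin m →₀ ℕ) (F ω))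
        have b2 := Int.lt_floor_add_one ((2 : ℝ) ^ X * coeff (e l : Fin m →₀ ℕ) (F ω))
        have b1' := Int.floor_le ((2 : ℝ) ^ X * coeff (e l : Fin m →₀ ℕ) (F ω'))
        have b2' := Int.lt_floor_add_one ((2 : ℝ) ^ X * coeff (e l : Fin m →₀ ℕ) (F ω'))
        have b3 : 2 ^ X * |coeff (e l : Fin m →₀ ℕ) (F ω) - coeff (e l : Fin m →₀ ℕ) (F ω')| =
            |(2 : ℝ) ^ X * coeff (e l : Fin m →₀ ℕ) (F ω) -
              2 ^ X * coeff (e l : Fin m →₀ ℕ) (F ω')| := by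
          rw [← mul_sub, abs_mul, abs_of_pos (by positivity : (0 : ℝ) < 2 ^ X)]
        rw [b3] at a1
        push_cast
        have b4 := abs_le.1 (by linarith :
          |(2 : ℝ) ^ X * coeff (e l : Fin m →₀ ℕ) (F ω) -
              2 ^ X * coeff (e l : Fin m →₀ ℕ) (F ω')| ≤ B - 1)
        rw [abs_le]
        constructor <;> linarith [b4.1, b4.2]
      have e4 : |((dgt ω l - dgt ω' l : ℤ) : ℝ)| = ((|dgt ω l - dgt ω' l| : ℤ) : ℝ) := by
        rw [Int.cast_abs]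
      rw [e4] at a2
      exact_mod_cast a2) hη
  rw [Finset.card_empty] at h3
  rw [← hN]
  have h4 : ((0 : ℕ) : ℝ) * ((X + b + 1 : ℕ) * Real.log 2 + 2 * Real.log 2) = 0 := by
    push_cast
    ring
  rw [h4] at h3
  linarith

/-- **Few bits, given the shapes and the heights of the tied coordinates.** -/
theorem shp_few (n K : ℕ) (lam gam : ℕ → ℝ) (C₁ : ℝ) (hC₁ : 1 ≤ C₁) : ∃ C : ℝ, 1 ≤ C ∧
    ∀ (M : ℕ) (η : ℝ), 2 ≤ M → 0 < η → ∃ (κ₀ : ℝ) (z₀ : ℕ), 0 < κ₀ ∧
    ∀ (J a₀ w₀ z : ℕ) (κ : ℝ) (D : NDat2) (q : D.Ω → ℝ), z₀ ≤ z → κ ≤ κ₀ →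
      D.Ok2 n K J a₀ w₀ z M lam gam κ C₁ q →
      ∀ (i j i₁ j₁ i₂ j₂ X bb s : ℕ) (S : D.Ω → ℕ → PN) (pr : ℕ → ℕ × ℕ) (c : Fin (n - 1)),
        i < M → j < M → i₁ < M → j₁ < M → i₂ < M → j₂ < M → z + 2 ≤ X → C * z ≤ bb →
        Lv3 D (c + 1) X s (i, j) (i₁, j₁) (i₂, j₂) → (∀ ω, 0 < q ω → Sd D n K i j S ω) →
        pr (c + 1) = (i₁, j₁) →
        (∀ l : Fin (n - 1), l < c → Tid D (i, j) (i₁, j₁) (i₂, j₂) (l + 1) →
          pr (l + 1) = (i₁, j₁)) →
        ∀ (Y : Type) (y : D.Ω → Y), Det q y S → Det q y (D.Ψ i₂ j₂) →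
          Det q y (fun ω => D.X ω 0) →
          (∀ l : Fin (n - 1), l < c → Tid D (i, j) (i₁, j₁) (i₂, j₂) (l + 1) →
            Det q y (fun ω => rnd X (shsS D n z i j bb S pr ω l)) ∧
            Det q y (fun ω => dg X (vS D n z i j X S ω l -
              eval (vS D n z i j X S ω) (rnd X (shsS D n z i j bb S pr ω l))))) →
          CH q (fun ω => rnd X (shsS D n z i j bb S pr ω c)) y ≤
            C * (z + s) + η * (X + bb + C) := by
  obtain ⟨K', C₀, hKK, hC₀, hfr⟩ := frm_ev n K lam gam C₁ hC₁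
  obtain ⟨C₂, hC₂, htw⟩ := cf_two n K' C₀ hC₀
  obtain ⟨C₃, hC₃, hcf⟩ := cf_one n K' C₀ hC₀
  obtain ⟨N, hN⟩ : ∃ N : ℕ, N = (Pool.Agent.H36.KBX.bx (n - 1) (dK n K)).card := ⟨_, rfl⟩
  have hN0 : (0 : ℝ) ≤ N := Nat.cast_nonneg _
  have hNC : 0 ≤ N * (C₂ + 3) := by positivity
  refine ⟨N * (C₂ + 3) + 2 * C₃ + 4, by linarith, fun M η hM hη => ?_⟩
  obtain ⟨η', hη'⟩ : ∃ η' : ℝ, η' = η / (N + 1) := ⟨_, rfl⟩
  have hη'0 : 0 < η' := by rw [hη']; positivity
  obtain ⟨κ₀, z₀, hκ₀, hev⟩ := hfr M η' hM hη'0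
  refine ⟨κ₀, max z₀ 1, hκ₀, ?_⟩
  intro J a₀ w₀ z κ D q hz hκ hO i j i₁ j₁ i₂ j₂ X bb s S pr c hi hj hi₁ hj₁ hi₂ hj₂ hX hbb hL hS
    hpc hpl Y y yS y2 yX yt
  have hz0 : z₀ ≤ z := (le_max_left _ _).trans hz
  have hz1 : 1 ≤ z := (le_max_right _ _).trans hz
  have hzr : (1 : ℝ) ≤ z := by exact_mod_cast hz1
  have hq := hO.isLaw
  have hF := hev J a₀ w₀ z κ D q hz0 hκ hO
  have hc1 : 1 ≤ (c : ℕ) + 1 := by omega
  have hcn : (c : ℕ) + 1 ≤ n := by omega
  have hX1 : 1 ≤ X := by omega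
  have hbb3 : 2 * C₃ * z ≤ bb := by
    refine le_trans ?_ hbb
    exact mul_le_mul_of_nonneg_right (by linarith) (by linarith)
  have hgds : ∀ l, 1 ≤ l → l ≤ n → Lv3 D l X s (i, j) (i₁, j₁) (i₂, j₂) → ∀ ω, 0 < q ω →
      Fra D n K' M z C₀ ω → GdsS D n z i j i₁ j₁ bb S l ω :=
    fun l h1 h2 h3 ω hω h α hα => (hcf D K z X M i j i₁ j₁ i₁ j₁ l S ω hKK hz1 hX h1 h2 hi hj
      hi₁ hj₁ hi₁ hj₁ hO.G_tri hO.G_deg h3.lv h (hS ω hω) α hα).trans (by
        have h4 : (2 : ℝ) ^ bb = exp (Real.log 2 * bb) := by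
          rw [mul_comm, exp_nat_mul, exp_log (by norm_num)]
        rw [h4]
        refine exp_le_exp.2 ?_
        have h5 : 1 / 2 ≤ Real.log 2 := by linarith [Real.log_two_gt_d9]
        have h6 : (0 : ℝ) ≤ bb := Nat.cast_nonneg _
        nlinarith)
  have hPs : ∀ ω, 0 < q ω → Ps D n i₁ j₁ ω :=
    fun ω hω l l1 l2 => hO.pos i₁ hi₁.le j₁ hj₁.le ω hω l l1 l2
  have h2z : (1 : ℝ) ≤ 2 ^ z := one_le_pow₀ (by norm_num)
  have h4z : (0 : ℝ) < 4 * 2 ^ z := by positivity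
  obtain ⟨B, hB⟩ : ∃ B : ℕ, B = ⌈exp (C₂ * z) * 2 ^ s⌉₊ + 1 := ⟨_, rfl⟩
  have h2s : (1 : ℝ) ≤ 2 ^ s := one_le_pow₀ (by norm_num)
  have h2X : (0 : ℝ) < 2 ^ X := by positivity
  have few := few_cf hq (d := dK n K) X bb B (fun ω => shsS D n z i j bb S pr ω c) y
    (Fra D n K' M z C₀) (η := η')
    (fun ω hω => by
      unfold shsS
      exact (deg_C_mul _ _).trans (deg_shpS (hS ω hω).tri (hO.G_tri _ _ _) (hS ω hω).deg
        (hO.G_deg _ _ _) hcn))
    (fun ω hω α => by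
      unfold shsS
      rw [coeff_C_mul, abs_mul]
      have h4 : |1 / (4 * (2 : ℝ) ^ z)| ≤ 1 := by
        rw [abs_of_pos (by positivity), div_le_one (by positivity)]
        linarith
      calc |1 / (4 * (2 : ℝ) ^ z)| * _ ≤ 1 * 2 ^ bb :=
            mul_le_mul h4 (cf_shpS α) (abs_nonneg _) zero_le_one
        _ = _ := one_mul _)
    (fun ω ω' hω hω' hf hf' hy α => by
      have g1 := hgds _ hc1 hcn hL ω hω hf
      have g2 := hgds _ hc1 hcn hL ω' hω' hf'
      have key := htw D K z X M i j i₁ j₁ i₂ j₂ bb (c + 1) s S pr ω ω' hKK hz1 hX hc1 hcn hi hj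
        hi₁ hj₁ hi₂ hj₂ hO.G_tri hO.G_deg hL hf hf' (hS ω hω) (hS ω' hω') (hPs ω hω)
        (hPs ω' hω') (yS ω ω' hω hω' hy) (y2 ω ω' hω hω' hy) (yX ω ω' hω hω' hy)
        (fun l hl hti => by
          have hlc : l < c := by
            rw [Fin.lt_def]
            omega
          have h3 : Lv3 D (l + 1) X s (i, j) (i₁, j₁) (i₂, j₂) := hL.tie hX1 (by omega) hl hti
          exact ⟨hpl l hlc hti, hgds _ (by omega) (by omega) h3 ω hω hf,
            hgds _ (by omega) (by omega) h3 ω' hω' hf', (yt l hlc hti).1 ω ω' hω hω' hy,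
            (yt l hlc hti).2 ω ω' hω hω' hy⟩) α
      have e1 : |coeff α (shsS D n z i j bb S pr ω c) - coeff α (shsS D n z i j bb S pr ω' c)| ≤
          exp (C₂ * z) * 2 ^ s / 2 ^ X := by
        unfold shsS
        rw [hpc]
        simp only
        rw [coeff_C_mul, coeff_C_mul, ← mul_sub, abs_mul,
          abs_of_pos (by positivity : (0 : ℝ) < 1 / (4 * 2 ^ z))]
        unfold shpS
        rw [if_pos g1, if_pos g2, coeff_sub, coeff_sub, coeff_C, coeff_C]
        by_cases hα : 0 = α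
        · rw [if_pos hα, if_pos hα, ← hα, sub_self, sub_self, sub_self, abs_zero, mul_zero]
          positivity
        · rw [if_neg hα, if_neg hα, sub_zero, sub_zero]
          refine (mul_le_mul_of_nonneg_left (key (Ne.symm hα)) (by positivity)).trans
            (le_of_eq ?_)
          field_simp
      have e2 : 2 ^ X * |coeff α (shsS D n z i j bb S pr ω c) -
          coeff α (shsS D n z i j bb S pr ω' c)| ≤ exp (C₂ * z) * 2 ^ s := by
        calc 2 ^ X * |coeff α (shsS D n z i j bb S pr ω c) -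
              coeff α (shsS D n z i j bb S pr ω' c)| ≤
              2 ^ X * (exp (C₂ * z) * 2 ^ s / 2 ^ X) := mul_le_mul_of_nonneg_left e1 h2X.le
          _ = _ := by field_simp
      have e3 := Nat.le_ceil (exp (C₂ * z) * 2 ^ s)
      rw [hB]
      push_cast
      linarith) hF
  refine few.trans ?_
  rw [← hN]
  have hl2 : Real.log 2 ≤ 1 := by linarith [Real.log_two_lt_d9]
  have hl20 : 0 ≤ Real.log 2 := Real.log_nonneg (by norm_num)
  have hsr : (0 : ℝ) ≤ s := Nat.cast_nonneg _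
  have hE1 : 1 ≤ exp (C₂ * z) := one_le_exp (by positivity)
  have e1 : Real.log (2 * B + 1) ≤ (C₂ + 2) * z + s := by
    have f1 : 2 * (B : ℝ) + 1 ≤ exp ((C₂ + 2) * z + s) := by
      have f2 := Nat.ceil_lt_add_one (by positivity : 0 ≤ exp (C₂ * z) * 2 ^ s)
      have f3 : exp ((C₂ + 2) * z + s) = exp (2 * z) * (exp (C₂ * z) * exp s) := by
        rw [← exp_add, ← exp_add]
        congr 1
        ring
      have f4 : (7 : ℝ) ≤ exp (2 * z) := by
        have h7 : (7 : ℝ) ≤ exp 2 := by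
          have h := Real.exp_one_gt_d9
          have e : exp 2 = exp 1 * exp 1 := by
            rw [← exp_add]
            norm_num
          rw [e]
          nlinarith
        exact h7.trans (exp_le_exp.2 (by linarith))
      have f5 : (2 : ℝ) ^ s ≤ exp s := by
        have h7 : (2 : ℝ) ≤ exp 1 := by linarith [Real.exp_one_gt_d9]
        calc (2 : ℝ) ^ s ≤ exp 1 ^ s := pow_le_pow_left₀ (by norm_num) h7 s
          _ = exp s := by rw [← exp_nat_mul, mul_one]
      have f6 : 1 ≤ exp (C₂ * z) * 2 ^ s := one_le_mul_of_one_le_of_one_le hE1 h2s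
      have f7 : exp (C₂ * z) * 2 ^ s ≤ exp (C₂ * z) * exp s :=
        mul_le_mul_of_nonneg_left f5 (exp_pos _).le
      have f8 : 7 * (exp (C₂ * z) * exp s) ≤ exp (2 * z) * (exp (C₂ * z) * exp s) :=
        mul_le_mul_of_nonneg_right f4 (by positivity)
      rw [f3, hB]
      push_cast
      linarith
    calc Real.log (2 * B + 1) ≤ Real.log (exp ((C₂ + 2) * z + s)) :=
          Real.log_le_log (by positivity) f1
      _ = _ := Real.log_exp _
  have e2 : N * Real.log (2 * B + 1) ≤ N * (C₂ + 3) * (z + s) := by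
    calc N * Real.log (2 * B + 1) ≤ N * ((C₂ + 2) * z + s) := mul_le_mul_of_nonneg_left e1 hN0
      _ ≤ N * ((C₂ + 3) * (z + s)) := mul_le_mul_of_nonneg_left (by nlinarith) hN0
      _ = _ := by ring
  have e3 : η' * (N * (((X + bb + 1 : ℕ) : ℝ) * Real.log 2 + 2 * Real.log 2)) ≤
      η * (X + bb + 3) := by
    have g1 : (((X + bb + 1 : ℕ) : ℝ) * Real.log 2 + 2 * Real.log 2) ≤ X + bb + 3 := by
      push_cast
      have g2 : ((X : ℝ) + bb + 1 + 2) * Real.log 2 ≤ (X + bb + 1 + 2) * 1 :=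
        mul_le_mul_of_nonneg_left hl2 (by positivity)
      linarith
    have g3 : η' * N ≤ η := by
      rw [hη', div_mul_eq_mul_div, div_le_iff₀ (by positivity)]
      nlinarith
    calc η' * (N * (((X + bb + 1 : ℕ) : ℝ) * Real.log 2 + 2 * Real.log 2)) =
          η' * N * (((X + bb + 1 : ℕ) : ℝ) * Real.log 2 + 2 * Real.log 2) := by ring
      _ ≤ η * (X + bb + 3) := mul_le_mul g3 g1 (by positivity) hη.le
  have e4 : η * ((X : ℝ) + bb + 3) ≤ η * (X + bb + (N * (C₂ + 3) + 2 * C₃ + 4)) :=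
    mul_le_mul_of_nonneg_left (by linarith) hη.le
  have e5 : Real.log 2 + N * (C₂ + 3) * (z + s) ≤
      (N * (C₂ + 3) + 2 * C₃ + 4) * (z + s) := by
    have : (1 : ℝ) ≤ z + s := by linarith
    nlinarith
  linarith

/-- Families. -/
theorem ch_ite {Ω S T : Type} [Fintype Ω] {p : Ω → ℝ} {m : ℕ} (hp : ∀ ω, 0 ≤ p ω)
    (s : Finset (Fin m)) (F : Ω → Fin m → S) (C : Ω → T) :
    CH p (fun ω c => if c ∈ s then some (F ω c) else none) C ≤
      ∑ c ∈ s, CH p (fun ω => F ω c) C := by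
  classical
  induction s using Finset.induction_on with
  | empty =>
    have h : CH p (fun ω (c : Fin m) => if c ∈ (∅ : Finset (Fin m)) then some (F ω c) else none) C
        = 0 := CH_eq_zero hp fun ω ω' _ _ _ => by
      funext c
      rw [if_neg (Finset.notMem_empty c), if_neg (Finset.notMem_empty c)]
    rw [h, Finset.sum_empty]
  | insert b s hb ih =>
    rw [Finset.sum_insert hb]
    have h1 := CH_subadd hp (fun ω => F ω b)
      (fun ω (c : Fin m) => if c ∈ s then some (F ω c) else none) C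
    have h2 : CH p (fun ω c => if c ∈ insert b s then some (F ω c) else none) C ≤
        CH p (fun ω => (F ω b, fun c : Fin m => if c ∈ s then some (F ω c) else none)) C := by
      refine CH_mono_left hp fun ω ω' _ _ h => ?_
      have h3 := Prod.ext_iff.1 (Prod.ext_iff.1 h).1
      funext c
      have h4 := congrFun h3.2 c
      by_cases hc : c = b
      · subst hc
        rw [if_pos (Finset.mem_insert_self _ _), if_pos (Finset.mem_insert_self _ _)]
        exact congrArg some h3.1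
      · by_cases hs : c ∈ s
        · rw [if_pos (Finset.mem_insert_of_mem hs), if_pos (Finset.mem_insert_of_mem hs)]
          simp only [if_pos hs] at h4
          exact h4
        · have : c ∉ insert b s := fun h5 => (Finset.mem_insert.1 h5).elim hc hs
          rw [if_neg this, if_neg this]
    linarith

/-- **Few bits, given the heights of the tied coordinates.** -/
theorem ta_all (n K : ℕ) (lam gam : ℕ → ℝ) (C₁ : ℝ) (hC₁ : 1 ≤ C₁) : ∃ C : ℝ, 1 ≤ C ∧
    ∀ (M : ℕ) (η : ℝ), 2 ≤ M → 0 < η → ∃ (κ₀ : ℝ) (z₀ : ℕ), 0 < κ₀ ∧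
    ∀ (J a₀ w₀ z : ℕ) (κ : ℝ) (D : NDat2) (q : D.Ω → ℝ), z₀ ≤ z → κ ≤ κ₀ →
      D.Ok2 n K J a₀ w₀ z M lam gam κ C₁ q →
      ∀ (i j i₁ j₁ i₂ j₂ X bb s : ℕ) (S : D.Ω → ℕ → PN) (pr : ℕ → ℕ × ℕ) (c : Fin (n - 1)),
        i < M → j < M → i₁ < M → j₁ < M → i₂ < M → j₂ < M → z + 2 ≤ X → C * z ≤ bb →
        Lv3 D (c + 1) X s (i, j) (i₁, j₁) (i₂, j₂) → (∀ ω, 0 < q ω → Sd D n K i j S ω) →
        pr (c + 1) = (i₁, j₁) →
        (∀ l : Fin (n - 1), l < c → Tid D (i, j) (i₁, j₁) (i₂, j₂) (l + 1) →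
          pr (l + 1) = (i₁, j₁)) →
        ∀ (Y : Type) (y : D.Ω → Y), Det q y S → Det q y (D.Ψ i₂ j₂) →
          Det q y (fun ω => D.X ω 0) →
          (∀ l : Fin (n - 1), l < c → Tid D (i, j) (i₁, j₁) (i₂, j₂) (l + 1) →
            Det q y (fun ω => dg X (vS D n z i j X S ω l -
              eval (vS D n z i j X S ω) (rnd X (shsS D n z i j bb S pr ω l))))) →
          CH q (fun ω => rnd X (shsS D n z i j bb S pr ω c)) y ≤
            C * (z + s) + η * (X + bb + C) := by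
  classical
  obtain ⟨C, hC, h⟩ := shp_few n K lam gam C₁ hC₁
  have h2n : (1 : ℝ) ≤ 2 ^ n := one_le_pow₀ (by norm_num)
  refine ⟨2 ^ n * C, by nlinarith, fun M η hM hη => ?_⟩
  obtain ⟨κ₀, z₀, hκ₀, h⟩ := h M (η / 2 ^ n) hM (by positivity)
  refine ⟨κ₀, z₀, hκ₀, ?_⟩
  intro J a₀ w₀ z κ D q hz hκ hO i j i₁ j₁ i₂ j₂ X bb s S pr c hi hj hi₁ hj₁ hi₂ hj₂ hX hbb hL hS
    hpc hpl Y y yS y2 yX yt
  have hq := hO.isLaw
  have hX1 : 1 ≤ X := by omega
  have hbb' : C * z ≤ bb := by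
    refine le_trans ?_ hbb
    refine mul_le_mul_of_nonneg_right ?_ (Nat.cast_nonneg _)
    nlinarith
  obtain ⟨A, hA⟩ : ∃ A : ℝ, A = C * (z + s) + η / 2 ^ n * (X + bb + C) := ⟨_, rfl⟩
  have hA0 : 0 ≤ A := by
    rw [hA]
    have : 0 ≤ C := by linarith
    positivity
  have main : ∀ (m : ℕ) (c : Fin (n - 1)), (c : ℕ) = m →
      Lv3 D (c + 1) X s (i, j) (i₁, j₁) (i₂, j₂) → pr (c + 1) = (i₁, j₁) →
      (∀ l : Fin (n - 1), l < c → Tid D (i, j) (i₁, j₁) (i₂, j₂) (l + 1) →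
          pr (l + 1) = (i₁, j₁)) →
      (∀ l : Fin (n - 1), l < c → Tid D (i, j) (i₁, j₁) (i₂, j₂) (l + 1) →
            Det q y (fun ω => dg X (vS D n z i j X S ω l -
              eval (vS D n z i j X S ω) (rnd X (shsS D n z i j bb S pr ω l))))) →
      CH q (fun ω => rnd X (shsS D n z i j bb S pr ω c)) y ≤ 2 ^ m * A := by
    intro m
    induction m using Nat.strong_induction_on with
    | _ m ih =>
      intro c hcm hL hpc hpl yt
      obtain ⟨T, hT⟩ : ∃ T : Finset (Fin (n - 1)), T = univ.filter fun l =>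
        l < c ∧ Tid D (i, j) (i₁, j₁) (i₂, j₂) (l + 1) := ⟨_, rfl⟩
      have hTm : ∀ l, l ∈ T ↔ l < c ∧ Tid D (i, j) (i₁, j₁) (i₂, j₂) (l + 1) := fun l => by
        rw [hT, mem_filter]
        simp only [mem_univ, true_and]
      have h1 := CH_le_add hq.nonneg (fun ω => rnd X (shsS D n z i j bb S pr ω c))
        (fun ω (l : Fin (n - 1)) => if l ∈ T then some (rnd X (shsS D n z i j bb S pr ω l))
          else none) y
      have h2 := ch_ite hq.nonneg T (fun ω l => rnd X (shsS D n z i j bb S pr ω l)) y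
      have h3 : ∑ l ∈ T, CH q (fun ω => rnd X (shsS D n z i j bb S pr ω l)) y ≤
          (2 ^ m - 1) * A := by
        have h4 : ∀ l ∈ T, CH q (fun ω => rnd X (shsS D n z i j bb S pr ω l)) y ≤
            2 ^ (l : ℕ) * A := fun l hl => by
          obtain ⟨a1, a2⟩ := (hTm l).1 hl
          have a3 : (l : ℕ) < c := a1
          refine ih l (by omega) l rfl (hL.tie hX1 (by omega) (by omega) a2) (hpl l a1 a2)
            (fun l' b1 b2 => hpl l' (b1.trans a1) b2) (fun l' b1 b2 => yt l' (b1.trans a1) b2)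
        refine (Finset.sum_le_sum h4).trans ?_
        rw [← Finset.sum_mul]
        refine mul_le_mul_of_nonneg_right ?_ hA0
        have h5 : ∑ l ∈ T, (2 : ℝ) ^ (l : ℕ) = ∑ k ∈ T.image (fun l : Fin (n - 1) => (l : ℕ)),
            (2 : ℝ) ^ k := by
          rw [Finset.sum_image]
          intro a _ b _ hab
          exact Fin.ext hab
        rw [h5]
        have h6 : T.image (fun l : Fin (n - 1) => (l : ℕ)) ⊆ range m := by
          intro k hk
          rw [mem_image] at hk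
          obtain ⟨l, hl, rfl⟩ := hk
          have a1 := ((hTm l).1 hl).1
          have a3 : (l : ℕ) < c := a1
          rw [mem_range]
          omega
        refine (Finset.sum_le_sum_of_subset_of_nonneg h6 fun _ _ _ => by positivity).trans ?_
        rw [geom_sum_eq (by norm_num : (2 : ℝ) ≠ 1)]
        norm_num
      have h5 := h J a₀ w₀ z κ D q hz hκ hO i j i₁ j₁ i₂ j₂ X bb s S pr c hi hj hi₁ hj₁ hi₂ hj₂
        hX hbb' hL hS hpc hpl _ (fun ω => ((fun l : Fin (n - 1) =>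
          if l ∈ T then some (rnd X (shsS D n z i j bb S pr ω l)) else none), y ω))
        (fun ω ω' p1 p2 e => yS ω ω' p1 p2 (Prod.ext_iff.1 e).2)
        (fun ω ω' p1 p2 e => y2 ω ω' p1 p2 (Prod.ext_iff.1 e).2)
        (fun ω ω' p1 p2 e => yX ω ω' p1 p2 (Prod.ext_iff.1 e).2)
        (fun l a1 a2 => ⟨fun ω ω' p1 p2 e => by
            have e1 := congrFun (Prod.ext_iff.1 e).1 l
            have hl : l ∈ T := (hTm l).2 ⟨a1, a2⟩
            simp only [if_pos hl] at e1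
            exact Option.some.inj e1,
          fun ω ω' p1 p2 e => yt l a1 a2 ω ω' p1 p2 (Prod.ext_iff.1 e).2⟩)
      rw [← hA] at h5
      have h6 : (2 : ℝ) ^ m * A = (2 ^ m - 1) * A + A := by ring
      rw [h6]
      linarith
  refine (main c c rfl hL hpc hpl yt).trans ?_
  have e1 : (2 : ℝ) ^ (c : ℕ) * A ≤ 2 ^ n * A :=
    mul_le_mul_of_nonneg_right (pow_le_pow_right₀ (by norm_num) (by omega)) hA0
  have e2 : 2 ^ n * A = 2 ^ n * C * (z + s) + η * (X + bb + C) := by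
    rw [hA]
    field_simp
  have e3 : η * ((X : ℝ) + bb + C) ≤ η * (X + bb + 2 ^ n * C) := by
    refine mul_le_mul_of_nonneg_left ?_ hη.le
    nlinarith
  linarith

end Pool.TA35
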