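import Pool.Agent.H35.TA.Pure

/-!
# The height of a tied coordinate

From the height over the composite sheet at the second place and the shape there: the height over
the base sheet of the point on the composite sheet, for any coordinates.
-/

set_option autoImplicit false

namespace Pool.TA35

open Finset Real MvPolynomial
open Pool.STAT Pool.MIC.Frm Pool.FRM

variable {K c : ℕ} {gb g₁ : ℕ → ℕ} {Fb F₁ : ℕ → PN} {th : ℕ → Prop} {E ε W : ℝ}

theorem dd_pw {W : ℝ} (hW : 4 ≤ W) {x ε : ℝ} {a b : ℕ} (hε : 0 ≤ ε) (h : x ≤ W ^ a * ε)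
    (hab : a ≤ b) : x ≤ W ^ b * ε :=
  h.trans (mul_le_mul_of_nonneg_right (pw_mono hW hab) hε)

/-- The height of the sample over the composite sheet of a thin coordinate, absolute. -/
theorem one_pt (H : Tr K c gb g₁ Fb F₁ th E ε) (hW : W = 4 * E) {l : ℕ} (h1 : 1 ≤ l)
    (hl : l < c) (ht : th l) {u y y₁ β ζ : ℕ → ℝ} (hβ : Cp c gb Fb F₁ th u β)
    (hu : ∀ l, 1 ≤ l → l < c → ¬ th l → |u l| ≤ E) (hζ : Pt c gb Fb y ζ)
    (hy : ∀ l, 1 ≤ l → l ≤ c → |y l| ≤ E) (hζ₁ : Pt c g₁ F₁ y₁ ζ)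
    (hy₁ : ∀ l, 1 ≤ l → l ≤ c → |y₁ l| ≤ E)
    (huy : ∀ l, 1 ≤ l → l < c → ¬ th l → |u l - y l| ≤ ε) :
    |y l - 2 ^ gb l * (eval β (F₁ l) - eval β (Fb l))| ≤ W ^ (dd K (c + 1) + 1) * ε := by
  have hE := H.e1
  have hε := H.eps
  have hW4 : 4 ≤ W := by linarith
  have hbd := H.bd hW hβ hu
  have hz := H.b.pt hE hW hζ hy
  have hn := H.near hW hβ hu hζ hy hζ₁ hy₁ huy
  have hB : (1 : ℝ) ≤ W ^ dd K c := one_le_pow₀ (by linarith)
  have hg : (0 : ℝ) < 2 ^ gb l := by positivity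
  have e1 := H.b.lip (l := l) hl.le hB (δ := W ^ dd K c * ε) (by positivity)
    (β := β) (β' := ζ)
    (fun k hk => ((hbd k (hk.trans hl)).1).trans (div_le_div_of_nonneg_right
      (wpow hE hW (by omega)) (by positivity)))
    (fun k hk => (hz k (hk.le.trans hl.le)).trans (div_le_div_of_nonneg_right
      (wpow hE hW (by omega)) (by positivity)))
    (fun k hk => (hn k (hk.trans hl)).trans (div_le_div_of_nonneg_right
      (mul_le_mul_of_nonneg_right (wpow hE hW (by omega)) hε) (by positivity)))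
  have e2 : y l - 2 ^ gb l * (eval β (F₁ l) - eval β (Fb l)) =
      2 ^ gb l * (eval β (Fb l) - eval ζ (Fb l)) - 2 ^ gb l * (β l - ζ l) := by
    rw [← (hβ.2 l h1 hl).1 ht]
    have e3 := hζ.2 l h1 hl.le
    have e4 : 2 ^ gb l * ζ l = 2 ^ gb l * eval ζ (Fb l) + y l := by
      rw [e3]
      field_simp
    linear_combination -e4
  rw [e2]
  refine (abs_sub _ _).trans ?_
  rw [abs_mul, abs_mul, abs_of_pos hg]
  have a1 : 2 ^ gb l * |eval β (Fb l) - eval ζ (Fb l)| ≤ W ^ dd K (c + 1) * ε := by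
    calc 2 ^ gb l * |eval β (Fb l) - eval ζ (Fb l)| ≤
          2 ^ gb l * (K * (W ^ dd K c) ^ K * E * (W ^ dd K c * ε) / 2 ^ gb l) :=
          mul_le_mul_of_nonneg_left e1 hg.le
      _ = (K * (W ^ dd K c) ^ K * E * W ^ dd K c) * ε := by field_simp
      _ ≤ W ^ dd K (c + 1) * ε := by
          have := sz2 (K := K) (l := c) hE hW
          exact mul_le_mul_of_nonneg_right (by linarith) hε
  have a2 : 2 ^ gb l * |β l - ζ l| ≤ W ^ dd K (c + 1) * ε := by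
    calc 2 ^ gb l * |β l - ζ l| ≤ 2 ^ gb l * (W ^ dd K (l + 1) * ε / 2 ^ gb l) :=
          mul_le_mul_of_nonneg_left (hn l hl) hg.le
      _ = W ^ dd K (l + 1) * ε := by field_simp
      _ ≤ W ^ dd K (c + 1) * ε := mul_le_mul_of_nonneg_right (wpow hE hW (by omega)) hε
  have a3 : W ^ (dd K (c + 1) + 1) * ε = W * (W ^ dd K (c + 1) * ε) := by
    rw [pow_succ]
    ring
  rw [a3]
  have a4 : 0 ≤ W ^ dd K (c + 1) * ε := by positivity
  nlinarith

/-- **The height of the tied coordinate for other coordinates.** -/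
theorem hw_of (H : Tr K c gb g₁ Fb F₁ th E ε) (hW : W = 4 * E) {l N : ℕ} (h1 : 1 ≤ l)
    (hl : l < c) (ht : th l) {u y y₁ β ζ u' β' : ℕ → ℝ} (hβ : Cp c gb Fb F₁ th u β)
    (hu : ∀ l, 1 ≤ l → l < c → ¬ th l → |u l| ≤ E) (hζ : Pt c gb Fb y ζ)
    (hy : ∀ l, 1 ≤ l → l ≤ c → |y l| ≤ E) (hζ₁ : Pt c g₁ F₁ y₁ ζ)
    (hy₁ : ∀ l, 1 ≤ l → l ≤ c → |y₁ l| ≤ E)
    (huy : ∀ l, 1 ≤ l → l < c → ¬ th l → |u l - y l| ≤ ε) (hβ' : Cp c gb Fb F₁ th u' β')
    (hu' : ∀ l, 1 ≤ l → l < c → ¬ th l → |u' l| ≤ E) {w : ℝ}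
    (hw : |w - (y l - 2 ^ gb l * (eval β (F₁ l) - eval β (Fb l)) +
      2 ^ gb l * (eval β' (F₁ l) - eval β' (Fb l)))| ≤ N * ε) :
    |2 ^ gb l * eval β' (Fb l) + w| ≤ W ^ (dd K (c + 1) + N + 2) * ε := by
  have hE := H.e1
  have hε := H.eps
  have hW4 : 4 ≤ W := by linarith
  have hg : (0 : ℝ) < 2 ^ gb l := by positivity
  have a1 := one_pt H hW h1 hl ht hβ hu hζ hy hζ₁ hy₁ huy
  have hbd := (H.bd hW hβ' hu' l hl).2
  have a2 : 2 ^ gb l * |eval β' (F₁ l)| ≤ W ^ dd K (c + 1) * ε := by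
    rw [← (hβ'.2 l h1 hl).1 ht]
    have e4 := H.th_le l h1 hl ht
    calc 2 ^ gb l * |β' l| ≤ (ε * 2 ^ g₁ l) * (W ^ dd K l / 2 ^ g₁ l) :=
          mul_le_mul e4 hbd (abs_nonneg _) (by positivity)
      _ = W ^ dd K l * ε := by field_simp
      _ ≤ W ^ dd K (c + 1) * ε := mul_le_mul_of_nonneg_right (wpow hE hW (by omega)) hε
  have e : 2 ^ gb l * eval β' (Fb l) + w =
      (w - (y l - 2 ^ gb l * (eval β (F₁ l) - eval β (Fb l)) +
      2 ^ gb l * (eval β' (F₁ l) - eval β' (Fb l)))) +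
      (y l - 2 ^ gb l * (eval β (F₁ l) - eval β (Fb l))) + 2 ^ gb l * eval β' (F₁ l) := by ring
  rw [e]
  refine (abs_add_le _ _).trans ((add_le_add (abs_add_le _ _) le_rfl).trans ?_)
  rw [abs_mul, abs_of_pos hg]
  refine (add_le_add (add_le_add hw a1) a2).trans ?_
  obtain ⟨V, hV⟩ : ∃ V : ℝ, V = W ^ dd K (c + 1) := ⟨_, rfl⟩
  have hV1 : 1 ≤ V := by
    rw [hV]
    exact one_le_pow₀ (by linarith)
  have e2 : W ^ (dd K (c + 1) + N + 2) = V * W ^ N * (W * W) := by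
    rw [hV]
    ring
  have e3 : W ^ (dd K (c + 1) + 1) = V * W := by rw [hV, pow_succ]
  rw [e2, e3, ← hV]
  have hN : (N : ℝ) ≤ W ^ N := by
    calc (N : ℝ) ≤ 2 ^ N := by exact_mod_cast (Nat.lt_two_pow_self (n := N)).le
      _ ≤ W ^ N := pow_le_pow_left₀ (by norm_num) (by linarith) _
  have hN1 : 1 ≤ W ^ N := one_le_pow₀ (by linarith)
  have f1 : (N : ℝ) ≤ V * W ^ N := by nlinarith
  have f2 : V ≤ V * W ^ N := by nlinarith
  have f3 : V * W ≤ V * W ^ N * W := mul_le_mul_of_nonneg_right f2 (by linarith)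
  have f4 : (N : ℝ) + V * W + V ≤ V * W ^ N * (W * W) := by
    have f5 : 0 ≤ V * W ^ N := by positivity
    have f6 : V * W ^ N * 4 ≤ V * W ^ N * W := mul_le_mul_of_nonneg_left hW4 f5
    have f7 : V * W ^ N * W * 4 ≤ V * W ^ N * W * W :=
      mul_le_mul_of_nonneg_left hW4 (by positivity)
    nlinarith
  calc N * ε + V * W * ε + V * ε = (N + V * W + V) * ε := by ring
    _ ≤ _ := mul_le_mul_of_nonneg_right f4 hε

end Pool.TA35
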