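import Pool.Agent.H41.GSD.HtA
import Pool.Agent.H24.GSD.Rnd
import Pool.Agent.H35.TA.Hw

/-!
# The shape of a coordinate from a near place and the heights of the tied coordinates

Objects of `Pool.GSD` over a side `S` at the base pair `(i, j)`. The shape of `c` is the composite
sheet at its own pair `t₁`. At the place `t₂` the label of `c` is known almost to the depth of the
base; the coordinates `l < c` are much coarser there, or deeper at both places, or tied.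
-/

set_option autoImplicit false

namespace Pool.TA35

open Finset Real MvPolynomial
open Pool.Agent.H49.Ent Pool.Agent.H32.Dense Pool.STK Pool.STAT Pool.MIC.Frm Pool.MIC7 Pool.FRM
open Pool.MIC Pool.MicA Pool.GSD
open Pool.BFL (Pl Pb)
open Pool.TIE (Dat dg)

/-- The levels for the shape of `c`: `b` the base, `t₁` the own pair, `t₂` the known place. -/
structure Lv3 (D : NDat2) (c X s : ℕ) (b t₁ t₂ : ℕ × ℕ) : Prop where
  lo : ∀ l, 1 ≤ l → l < c →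
    (D.g t₁.1 t₁.2 l ≤ D.g b.1 b.2 l ∧ D.g t₂.1 t₂.2 l + X ≤ D.g b.1 b.2 l) ∨
    (D.g b.1 b.2 l + X ≤ D.g t₁.1 t₁.2 l ∧ D.g b.1 b.2 l + X ≤ D.g t₂.1 t₂.2 l) ∨
    (D.g b.1 b.2 l + X ≤ D.g t₁.1 t₁.2 l ∧ D.g t₂.1 t₂.2 l ≤ D.g b.1 b.2 l ∧
      D.g b.1 b.2 l ≤ D.g t₂.1 t₂.2 l + s)
  c1 : D.g b.1 b.2 c + X ≤ D.g t₁.1 t₁.2 c
  c2 : D.g b.1 b.2 c ≤ D.g t₂.1 t₂.2 c + s

/-- Tied coordinates: deeper at the own pair, not deeper at the known place. -/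
def Tid (D : NDat2) (b t₁ t₂ : ℕ × ℕ) (l : ℕ) : Prop :=
  D.g b.1 b.2 l < D.g t₁.1 t₁.2 l ∧ D.g t₂.1 t₂.2 l ≤ D.g b.1 b.2 l

section levels

variable {D : NDat2} {c X s : ℕ} {b t₁ t₂ : ℕ × ℕ}

theorem Lv3.lv (h : Lv3 D c X s b t₁ t₂) : Lv D c X b t₁ t₁ := by
  refine ⟨fun l h1 h2 => ?_, h.c1⟩
  have h3 := h.c1
  rcases h.lo l h1 h2 with h4 | h4 | h4
  · left
    omega
  · right
    omega
  · right
    omega

/-- A tied coordinate in place of `c`. -/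
theorem Lv3.tie (h : Lv3 D c X s b t₁ t₂) (hX : 1 ≤ X) {l : ℕ} (h1 : 1 ≤ l) (h2 : l < c)
    (ht : Tid D b t₁ t₂ l) : Lv3 D l X s b t₁ t₂ := by
  refine ⟨fun l' h1' h2' => h.lo l' h1' (h2'.trans h2), ?_, ?_⟩
  · rcases h.lo l h1 h2 with h4 | h4 | h4
    · exact absurd ht.1 (not_lt.2 h4.1)
    · exact h4.1
    · exact h4.1
  · rcases h.lo l h1 h2 with h4 | h4 | h4
    · exact absurd ht.1 (not_lt.2 h4.1)
    · exact absurd ht.2 (by omega)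
    · exact h4.2.2

end levels

open Classical in
/-- The known point: `v` for the coarse coordinates, `w` for the tied ones, in the scale of the
position. -/
noncomputable def kpt (D : NDat2) (n z i j i₁ j₁ i₂ j₂ : ℕ) (S : D.Ω → ℕ → PN) (ω : D.Ω)
    (w v : Fin (n - 1) → ℝ) : ℕ → ℝ :=
  pt (D.g i j) (mxS D n i j i₂ j₂ S ω) fun k =>
    if k = 0 then (2 : ℝ) ^ D.g i j 0 * (D.X ω 0 - eval (D.X ω) (S ω 0)) else
      if D.thn n i j i₂ j₂ k then 0 else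
        if D.thn n i j i₁ j₁ k then uco n z w k else uco n z v k

section point

variable {D : NDat2} {n z i j i₁ j₁ i₂ j₂ : ℕ} {S : D.Ω → ℕ → PN} {ω : D.Ω}
  {w v : Fin (n - 1) → ℝ}

theorem kpt_zero (h : TriN (S ω)) (h' : TriN (D.Ψ i₂ j₂ ω)) :
    kpt D n z i j i₁ j₁ i₂ j₂ S ω w v 0 = D.X ω 0 := by
  classical
  unfold kpt
  rw [pt_eq (tri_mxS h h'), if_pos rfl]
  have e : mxS D n i j i₂ j₂ S ω 0 = S ω 0 := by
    unfold mxS
    rw [if_neg]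
    intro hc
    exact absurd hc.1 (by omega)
  rw [e, ev0 (h 0) _ (D.X ω)]
  field_simp
  ring

theorem kpt_deep (h : TriN (S ω)) (h' : TriN (D.Ψ i₂ j₂ ω)) {l : ℕ} (h1 : 1 ≤ l) (h2 : l ≤ n)
    (ht : D.g i j l < D.g i₂ j₂ l) : kpt D n z i j i₁ j₁ i₂ j₂ S ω w v l =
      eval (kpt D n z i j i₁ j₁ i₂ j₂ S ω w v) (D.Ψ i₂ j₂ ω l) := by
  classical
  conv_lhs => unfold kpt
  rw [pt_eq (tri_mxS h h'), if_neg (by omega), if_pos ⟨h1, h2, ht⟩, zero_div, add_zero]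
  have e : mxS D n i j i₂ j₂ S ω l = D.Ψ i₂ j₂ ω l := by
    unfold mxS
    rw [if_pos ⟨h1, h2, ht⟩]
  rw [e]
  rfl

theorem kpt_tied (h : TriN (S ω)) (h' : TriN (D.Ψ i₂ j₂ ω)) {l : ℕ} (h1 : 1 ≤ l) (h2 : l ≤ n)
    (ht : D.g i j l < D.g i₁ j₁ l) (ht' : D.g i₂ j₂ l ≤ D.g i j l) :
    kpt D n z i j i₁ j₁ i₂ j₂ S ω w v l =
      eval (kpt D n z i j i₁ j₁ i₂ j₂ S ω w v) (S ω l) + uco n z w l / 2 ^ D.g i j l := by
  classical
  conv_lhs => unfold kpt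
  rw [pt_eq (tri_mxS h h'), if_neg (by omega), if_neg (by
    intro hc
    exact absurd hc.2.2 (by omega)), if_pos ⟨h1, h2, ht⟩]
  have e : mxS D n i j i₂ j₂ S ω l = S ω l := by
    unfold mxS
    rw [if_neg]
    intro hc
    exact absurd hc.2.2 (by omega)
  rw [e]
  rfl

theorem kpt_fat (h : TriN (S ω)) (h' : TriN (D.Ψ i₂ j₂ ω)) {l : ℕ} (h1 : 1 ≤ l)
    (ht : D.g i₁ j₁ l ≤ D.g i j l) (ht' : D.g i₂ j₂ l ≤ D.g i j l) :
    kpt D n z i j i₁ j₁ i₂ j₂ S ω w v l =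
      eval (kpt D n z i j i₁ j₁ i₂ j₂ S ω w v) (S ω l) + uco n z v l / 2 ^ D.g i j l := by
  classical
  conv_lhs => unfold kpt
  rw [pt_eq (tri_mxS h h'), if_neg (by omega), if_neg (by
    intro hc
    exact absurd hc.2.2 (by omega)), if_neg (by
    intro hc
    exact absurd hc.2.2 (by omega))]
  have e : mxS D n i j i₂ j₂ S ω l = S ω l := by
    unfold mxS
    rw [if_neg]
    intro hc
    exact absurd hc.2.2 (by omega)
  rw [e]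
  rfl

/-- The known point depends on the known labels. -/
theorem kpt_congr {ω' : D.Ω} (t : TriN (S ω)) (eS : S ω = S ω')
    (e' : D.Ψ i₂ j₂ ω = D.Ψ i₂ j₂ ω') (e0 : D.X ω 0 = D.X ω' 0) :
    kpt D n z i j i₁ j₁ i₂ j₂ S ω w v = kpt D n z i j i₁ j₁ i₂ j₂ S ω' w v := by
  have h : eval (D.X ω) (S ω 0) = eval (D.X ω') (S ω' 0) := by
    rw [← eS]
    exact ev0 (t 0) _ _
  have hm : mxS D n i j i₂ j₂ S ω = mxS D n i j i₂ j₂ S ω' := by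
    funext k
    unfold mxS
    rw [eS, e']
  unfold kpt
  rw [hm, h, e0]

theorem cq_of {P : ℕ → PN} {x₀ : ℕ → ℝ} {c X s : ℕ} (hP : TriN P)
    (hx₀ : eval x₀ (P 0) = D.X ω 0) (h : TriN (S ω)) (h' : TriN (D.Ψ i₂ j₂ ω)) (hc : c ≤ n)
    (hL : Lv3 D c X s (i, j) (i₁, j₁) (i₂, j₂)) (hX : 1 ≤ X) :
    Cq c (D.g i j) (ch P (D.X ω 0) (S ω)) (ch P (D.X ω 0) (D.Ψ i₂ j₂ ω))
      (fun l => D.g i j l < D.g i₁ j₁ l) (Tid D (i, j) (i₁, j₁) (i₂, j₂)) (uco n z v)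
      (uco n z w) (zs P (kpt D n z i j i₁ j₁ i₂ j₂ S ω w v)) := by
  have h0 : kpt D n z i j i₁ j₁ i₂ j₂ S ω w v 0 = D.X ω 0 := kpt_zero h h'
  refine ⟨zs_zero hP h0 hx₀, fun l h1 h2 => ⟨fun ht => ?_, fun ht hti => ?_, fun hti => ?_⟩⟩
  · have h3 : D.g i₂ j₂ l ≤ D.g i j l := by
      rcases hL.lo l h1 h2 with h4 | h4 | h4
      · have := h4.2
        change D.g i₂ j₂ l + X ≤ D.g i j l at this
        omega
      · refine absurd ?_ ht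
        have := h4.1
        change D.g i j l + X ≤ D.g i₁ j₁ l at this
        change D.g i j l < D.g i₁ j₁ l
        omega
      · exact h4.2.1
    rw [eval_ch hP h0 h1]
    unfold zs
    rw [kpt_fat h h' h1 (not_lt.1 ht) h3]
    ring
  · have h3 : D.g i j l < D.g i₂ j₂ l := by
      by_contra hcon
      exact hti ⟨ht, not_lt.1 hcon⟩
    rw [eval_ch hP h0 h1, ← kpt_deep h h' h1 (by omega) h3]
    rfl
  · rw [eval_ch hP h0 h1]
    unfold zs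
    rw [kpt_tied h h' h1 (by omega) hti.1 hti.2]
    ring

end point

/-- The places are near to the frame: the hypotheses of `T3`. -/
theorem tr3_of (n K' : ℕ) (C : ℝ) (hC : 0 ≤ C) : ∃ C₂ : ℝ, 0 ≤ C₂ ∧ ∀ (D : NDat2)
    (K z X M i j i₁ j₁ i₂ j₂ c s : ℕ) (S : D.Ω → ℕ → PN) (ω : D.Ω), K ≤ K' → 1 ≤ z →
    z + 2 ≤ X → c ≤ n → i < M → j < M → i₁ < M → j₁ < M → i₂ < M → j₂ < M →
    (∀ i j x, TriN (D.G i j x)) → (∀ i j x l, (D.G i j x l).totalDegree ≤ K) →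
    Lv3 D c X s (i, j) (i₁, j₁) (i₂, j₂) → Fra D n K' M z C ω → Sd D n K i j S ω →
    ∃ P : ℕ → PN, TriN P ∧ eval (D.X ω) (P 0) = D.X ω 0 ∧
      T3 (K' * (K' + 1) ^ n) c (D.g i j) (D.g i₁ j₁) (D.g i₂ j₂) (ch P (D.X ω 0) (S ω))
        (ch P (D.X ω 0) (D.Ψ i₁ j₁ ω)) (ch P (D.X ω 0) (D.Ψ i₂ j₂ ω))
        (fun l => D.g i j l < D.g i₁ j₁ l) (Tid D (i, j) (i₁, j₁) (i₂, j₂)) (exp (C₂ * z))
        (4 * 2 ^ z / 2 ^ X) ∧ 6 * 2 ^ z ≤ exp (C₂ * z) := by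
  obtain ⟨C₁, hC₁, hsd⟩ := side_near n K' C hC
  have hC10 : 0 ≤ C₁ := hC.trans hC₁
  refine ⟨C₁ + 3, by linarith, ?_⟩
  intro D K z X M i j i₁ j₁ i₂ j₂ c s S ω hK hz hX hc hi hj hi₁ hj₁ hi₂ hj₂ tG dG hL hF hS
  obtain ⟨P, hP, dP, vP, nP⟩ := hF
  have hz1 : (1 : ℝ) ≤ z := by exact_mod_cast hz
  have hz0 : (0 : ℝ) ≤ z := by linarith
  have hx₀ : eval (D.X ω) (P 0) = D.X ω 0 := vP 0 (Nat.zero_le _)
  have hEE : exp (C * z) ≤ exp ((C₁ + 3) * z) := exp_le_exp.2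
    (mul_le_mul_of_nonneg_right (by linarith) hz0)
  have hEE1 : exp (C₁ * z) ≤ exp ((C₁ + 3) * z) := exp_le_exp.2
    (mul_le_mul_of_nonneg_right (by linarith) hz0)
  have hE3 : exp (3 * z) ≤ exp ((C₁ + 3) * z) := exp_le_exp.2
    (mul_le_mul_of_nonneg_right (by linarith) hz0)
  have h2z : (1 : ℝ) ≤ 2 ^ z := one_le_pow₀ (by norm_num)
  have h2X : (0 : ℝ) < 2 ^ X := by positivity
  have dS : ∀ l, (S ω l).totalDegree ≤ K' := fun l => (hS.deg l).trans hK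
  have dG' : ∀ i j x l, (D.G i j x l).totalDegree ≤ K' := fun i j x l => (dG i j x l).trans hK
  have hnb : ∀ i₃ j₃, i₃ < M → j₃ < M → Nb (K' * (K' + 1) ^ n) c (D.g i₃ j₃)
      (ch P (D.X ω 0) (D.Ψ i₃ j₃ ω)) (exp ((C₁ + 3) * z)) := fun i₃ j₃ h₃ h₃' =>
    nb_of hP (tG _ _ _) dP (fun l => dG' _ _ _ l) hc fun l hl =>
      (nP i₃ h₃ j₃ h₃' l hl).trans (div_le_div_of_nonneg_right hEE (by positivity))
  have hε : (2 : ℝ) ^ X * (4 * 2 ^ z / 2 ^ X) = 4 * 2 ^ z := by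
    field_simp
  have hε1 : 1 ≤ (2 : ℝ) ^ X * (4 * 2 ^ z / 2 ^ X) := by
    rw [hε]
    linarith
  have hε0 : (0 : ℝ) ≤ 4 * 2 ^ z / 2 ^ X := by positivity
  -- a deeper level
  have dp : ∀ a b : ℕ, a + X ≤ b → (2 : ℝ) ^ a ≤ 4 * 2 ^ z / 2 ^ X * 2 ^ b := by
    intro a b h3
    have h4 : (2 : ℝ) ^ a * 2 ^ X ≤ 2 ^ b := by
      rw [← pow_add]
      exact pow_le_pow_right₀ (by norm_num) h3
    calc (2 : ℝ) ^ a = 2 ^ a * 1 := (mul_one _).symm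
      _ ≤ 2 ^ a * (2 ^ X * (4 * 2 ^ z / 2 ^ X)) :=
          mul_le_mul_of_nonneg_left hε1 (by positivity)
      _ = 4 * 2 ^ z / 2 ^ X * (2 ^ a * 2 ^ X) := by ring
      _ ≤ 4 * 2 ^ z / 2 ^ X * 2 ^ b := mul_le_mul_of_nonneg_left h4 hε0
  have hX1 : 1 ≤ X := by omega
  have hc1 : D.g i j c + X ≤ D.g i₁ j₁ c := hL.c1
  have cs : ∀ l, 1 ≤ l → l < c → (D.g i₁ j₁ l ≤ D.g i j l ∧ D.g i₂ j₂ l + X ≤ D.g i j l) ∨
    (D.g i j l + X ≤ D.g i₁ j₁ l ∧ D.g i j l + X ≤ D.g i₂ j₂ l) ∨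
    (D.g i j l + X ≤ D.g i₁ j₁ l ∧ D.g i₂ j₂ l ≤ D.g i j l) := by
    intro l h1 h2
    rcases hL.lo l h1 h2 with h4 | h4 | h4
    · exact Or.inl h4
    · exact Or.inr (Or.inl h4)
    · exact Or.inr (Or.inr ⟨h4.1, h4.2.1⟩)
  refine ⟨P, hP, hx₀, ⟨⟨?_, hnb i₁ j₁ hi₁ hj₁, one_le_e (by linarith), hε0, ?_, ?_, ?_, ?_⟩,
    hnb i₂ j₂ hi₂ hj₂, ?_, ?_, ?_⟩, (six_le hz).trans hE3⟩
  · exact nb_of hP hS.tri dP dS hc fun l hl => (hsd D K i j z S ω P hK hz (fun x => tG i j x)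
      (fun x l => dG i j x l) hS hP dP vP (fun l hl => nP i hi j hj l hl) l hl).trans
        (div_le_div_of_nonneg_right hEE1 (by positivity))
  · rw [div_le_one h2X]
    calc (4 : ℝ) * 2 ^ z = 2 ^ (z + 2) := by
          rw [pow_add]
          ring
      _ ≤ 2 ^ X := pow_le_pow_right₀ (by norm_num) hX
  · intro l h1 h2 ht
    rcases cs l h1 h2 with h3 | h3 | h3
    · exact absurd h3.1 (not_le.2 ht)
    · exact dp _ _ h3.1
    · exact dp _ _ h3.1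
  · intro l h1 h2 ht
    exact not_lt.1 ht
  · intro l h1 h2 ht
    have h3 : D.g i₁ j₁ l ≤ D.g i j l := not_lt.1 ht
    have h4 := dp (D.g i j c + D.g i₁ j₁ l) (D.g i₁ j₁ c + D.g i j l) (by omega)
    rw [pow_add, pow_add] at h4
    rw [mul_assoc]
    exact h4
  · intro l h1 h2 ht
    rcases cs l h1 h2 with h3 | h3 | h3
    · have h4 := dp _ _ h3.2
      exact h4
    · exact absurd (by omega : D.g i j l < D.g i₁ j₁ l) ht
    · exact absurd (by omega : D.g i j l < D.g i₁ j₁ l) ht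
  · intro l h1 h2 ht hti
    rcases cs l h1 h2 with h3 | h3 | h3
    · exact absurd h3.1 (not_le.2 ht)
    · exact dp _ _ h3.2
    · exact absurd ⟨ht, h3.2⟩ hti
  · intro l h1 h2 hti
    exact ⟨hti.1, hti.2⟩

end Pool.TA35
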