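import Pool.Agent.H35.TA.Cell

/-!
# The shape of a coordinate: one sample and two samples
-/

set_option autoImplicit false

namespace Pool.TA35

open Finset Real MvPolynomial
open Pool.Agent.H49.Ent Pool.Agent.H32.Dense Pool.STK Pool.STAT Pool.MIC.Frm Pool.MIC7 Pool.FRM
open Pool.MIC Pool.MicA Pool.GSD
open Pool.BFL (Pl Pb)
open Pool.TIE (Dat dg)

/-- The sheet at the known place over the base sheet along the known point. -/
noncomputable def kn (D : NDat2) (n z i j i₁ j₁ i₂ j₂ c : ℕ) (S : D.Ω → ℕ → PN) (ω : D.Ω)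
    (w v : Fin (n - 1) → ℝ) : ℝ :=
  2 ^ D.g i j c * (eval (kpt D n z i j i₁ j₁ i₂ j₂ S ω w v) (D.Ψ i₂ j₂ ω c) -
    eval (kpt D n z i j i₁ j₁ i₂ j₂ S ω w v) (S ω c))

/-- **One sample.** The shape at the own pair is the sheet at the known place along the known
point, up to a constant and a small error. -/
theorem core (n K' N : ℕ) (C : ℝ) (hC : 0 ≤ C) : ∃ C' : ℝ, 0 ≤ C' ∧ ∀ (D : NDat2)
    (K z X M i j i₁ j₁ i₂ j₂ c s : ℕ) (S : D.Ω → ℕ → PN) (ω : D.Ω)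
    (w : (Fin (n - 1) → ℝ) → Fin (n - 1) → ℝ), K ≤ K' → 1 ≤ z →
    z + 2 ≤ X → 1 ≤ c → c ≤ n → i < M → j < M → i₁ < M → j₁ < M → i₂ < M → j₂ < M →
    (∀ i j x, TriN (D.G i j x)) → (∀ i j x l, (D.G i j x l).totalDegree ≤ K) →
    Lv3 D c X s (i, j) (i₁, j₁) (i₂, j₂) → Fra D n K' M z C ω → Sd D n K i j S ω →
    Ps D n i₁ j₁ ω →
    (∀ l : Fin (n - 1), (l : ℕ) + 1 < c → Tid D (i, j) (i₁, j₁) (i₂, j₂) (l + 1) →
      ∀ v : Fin (n - 1) → ℝ, (∀ k, |v k| ≤ 1) →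
        |w v l - (vS D n z i j X S ω l -
          (eval (vS D n z i j X S ω) (shrS D n z i j i₁ j₁ S (l + 1) ω) -
            eval v (shrS D n z i j i₁ j₁ S (l + 1) ω)) / (4 * 2 ^ z))| ≤ N / 2 ^ X) →
    ∀ v : Fin (n - 1) → ℝ, (∀ k, |v k| ≤ 1) →
      |(eval v (shrS D n z i j i₁ j₁ S c ω) - kn D n z i j i₁ j₁ i₂ j₂ c S ω (w v) v) -
        (eval 0 (shrS D n z i j i₁ j₁ S c ω) - kn D n z i j i₁ j₁ i₂ j₂ c S ω (w 0) 0)| ≤
      exp (C' * z) * (4 * 2 ^ z / 2 ^ X) * 2 ^ s := by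
  obtain ⟨C₂, hC₂, htr⟩ := tr3_of n K' C hC
  choose Dm hDm using fun c => main2 (K' * (K' + 1) ^ n) c
    (dd (K' * (K' + 1) ^ n) (c + 1) + (N + 1) + 2)
  obtain ⟨A, hA⟩ : ∃ A : ℕ, A = ∑ c ∈ range (n + 1), Dm c := ⟨_, rfl⟩
  have hAc : ∀ c ≤ n, Dm c ≤ A := fun m hm => by
    rw [hA]
    exact Finset.single_le_sum (f := Dm) (fun i _ => Nat.zero_le _) (mem_range.2 (by omega))
  refine ⟨(C₂ + 2) * A, by positivity, ?_⟩
  intro D K z X M i j i₁ j₁ i₂ j₂ c s S ω w hK hz hX hc1 hc hi hj hi₁ hj₁ hi₂ hj₂ tG dG hL hF hS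
    h₁ hw v hv
  obtain ⟨P, hP, hx₀, hT, hE⟩ := htr D K z X M i j i₁ j₁ i₂ j₂ c s S ω hK hz hX hc hi hj hi₁ hj₁
    hi₂ hj₂ tG dG hL hF hS
  have h2z : (1 : ℝ) ≤ 2 ^ z := one_le_pow₀ (by norm_num)
  have hX1 : 1 ≤ X := by omega
  have hE1 : 1 ≤ exp (C₂ * z) := hT.tr.e1
  have hyb : ∀ l, 1 ≤ l → l ≤ n → |ztS D i j S ω l| ≤ 1 := fun l a b => nat_le (hS.hgt l a b)
  have hvb := vS_bd (D := D) (z := z) (X := X) hyb
  have hvS : ∀ k, |vS D n z i j X S ω k| ≤ 1 := fun k => by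
    rw [abs_le]
    have := hvb k
    constructor <;> linarith [this.1, this.2]
  have cp : ∀ v : Fin (n - 1) → ℝ, Cp c (D.g i j) (ch P (D.X ω 0) (S ω))
      (ch P (D.X ω 0) (D.Ψ i₁ j₁ ω)) (fun l => D.g i j l < D.g i₁ j₁ l) (uco n z v)
      (zs P (cpt D n z i j i₁ j₁ S ω v)) := fun v => cp_of hP hx₀ hS.tri (tG _ _ _) hc
  have cq : ∀ w v : Fin (n - 1) → ℝ, Cq c (D.g i j) (ch P (D.X ω 0) (S ω))
      (ch P (D.X ω 0) (D.Ψ i₂ j₂ ω)) (fun l => D.g i j l < D.g i₁ j₁ l)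
      (Tid D (i, j) (i₁, j₁) (i₂, j₂)) (uco n z v) (uco n z w)
      (zs P (kpt D n z i j i₁ j₁ i₂ j₂ S ω w v)) := fun w v =>
    cq_of hP hx₀ hS.tri (tG _ _ _) hc hL hX1
  have hu : ∀ v : Fin (n - 1) → ℝ, (∀ k, |v k| ≤ 1) → ∀ l, 1 ≤ l → l < c →
      ¬ (D.g i j l < D.g i₁ j₁ l) → |uco n z v l| ≤ exp (C₂ * z) := fun v hv l a b _ =>
    (uco_bd hv a (b.trans_le hc)).trans hE
  have val : ∀ (v : Fin (n - 1) → ℝ) (l : ℕ), 1 ≤ l → eval v (shrS D n z i j i₁ j₁ S l ω) =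
      2 ^ D.g i j l * (eval (zs P (cpt D n z i j i₁ j₁ S ω v)) (ch P (D.X ω 0) (D.Ψ i₁ j₁ ω) l) -
        eval (zs P (cpt D n z i j i₁ j₁ S ω v)) (ch P (D.X ω 0) (S ω) l)) := by
    intro v l h1
    have hcz : cpt D n z i j i₁ j₁ S ω v 0 = D.X ω 0 := cpt_zero hS.tri (tG _ _ _)
    rw [eval_ch hP hcz h1, eval_ch hP hcz h1, eval_shrS]
    ring
  have kvl : ∀ w v : Fin (n - 1) → ℝ, kn D n z i j i₁ j₁ i₂ j₂ c S ω w v =
      2 ^ D.g i j c * (eval (zs P (kpt D n z i j i₁ j₁ i₂ j₂ S ω w v))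
        (ch P (D.X ω 0) (D.Ψ i₂ j₂ ω) c) -
        eval (zs P (kpt D n z i j i₁ j₁ i₂ j₂ S ω w v)) (ch P (D.X ω 0) (S ω) c)) := by
    intro w v
    have hcz : kpt D n z i j i₁ j₁ i₂ j₂ S ω w v 0 = D.X ω 0 := kpt_zero hS.tri (tG _ _ _)
    rw [eval_ch hP hcz hc1, eval_ch hP hcz hc1]
    unfold kn
    ring
  -- the tied coordinates
  have hw' : ∀ v : Fin (n - 1) → ℝ, (∀ k, |v k| ≤ 1) → ∀ l, 1 ≤ l → l < c →
      Tid D (i, j) (i₁, j₁) (i₂, j₂) l →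
      |2 ^ D.g i j l * eval (zs P (cpt D n z i j i₁ j₁ S ω v)) (ch P (D.X ω 0) (S ω) l) +
        uco n z (w v) l| ≤ (4 * exp (C₂ * z)) ^ (dd (K' * (K' + 1) ^ n) (c + 1) + (N + 1) + 2) *
          (4 * 2 ^ z / 2 ^ X) := by
    intro v hv l h1 h2 hti
    refine hw_of hT.tr rfl (N := N + 1) h1 h2 hti.1 (cp (vS D n z i j X S ω))
      (hu _ hvS) (pt_of hP rfl hx₀ c) (fun l a b => (hyb l a (b.trans hc)).trans hE1)
      (pt_of hP rfl hx₀ c) (fun l a b => (nat_le (h₁ l a (b.trans hc))).trans hE1)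
      (fun l a b _ => uco_near a (b.trans_le hc) (hyb l a (b.le.trans hc))) (cp v) (hu v hv) ?_
    obtain ⟨m, rfl⟩ : ∃ m, l = m + 1 := ⟨l - 1, by omega⟩
    have hm : m < n - 1 := by omega
    have e1 := hw ⟨m, hm⟩ h2 hti v hv
    have e2 := uco_near (D := D) (n := n) (z := z) (X := X) (S := S) (ω := ω) (i := i) (j := j)
      h1 (by omega) (hyb (m + 1) h1 (by omega))
    rw [uco_succ h1 (by omega)] at e2 ⊢
    rw [← val _ _ h1, ← val _ _ h1]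
    have e3 : (⟨m + 1 - 1, by omega⟩ : Fin (n - 1)) = ⟨m, hm⟩ := Fin.ext (by
      change m + 1 - 1 = m
      omega)
    rw [e3] at e2 ⊢
    change |w v ⟨m, hm⟩ - (vS D n z i j X S ω ⟨m, hm⟩ -
      (eval (vS D n z i j X S ω) (shrS D n z i j i₁ j₁ S (m + 1) ω) -
        eval v (shrS D n z i j i₁ j₁ S (m + 1) ω)) / (4 * 2 ^ z))| ≤ N / 2 ^ X at e1
    obtain ⟨x, hx⟩ : ∃ x, x = w v ⟨m, hm⟩ - (vS D n z i j X S ω ⟨m, hm⟩ -
      (eval (vS D n z i j X S ω) (shrS D n z i j i₁ j₁ S (m + 1) ω) -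
        eval v (shrS D n z i j i₁ j₁ S (m + 1) ω)) / (4 * 2 ^ z)) := ⟨_, rfl⟩
    rw [← hx] at e1
    have h0 : (0 : ℝ) < 4 * 2 ^ z := by positivity
    have e4 : 4 * 2 ^ z * w v ⟨m, hm⟩ - 2 * 2 ^ z - (ztS D i j S ω (m + 1) -
        eval (vS D n z i j X S ω) (shrS D n z i j i₁ j₁ S (m + 1) ω) +
        eval v (shrS D n z i j i₁ j₁ S (m + 1) ω)) = 4 * 2 ^ z * x +
        (4 * 2 ^ z * vS D n z i j X S ω ⟨m, hm⟩ - 2 * 2 ^ z - ztS D i j S ω (m + 1)) := by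
      rw [hx]
      field_simp
      ring
    change |4 * 2 ^ z * w v ⟨m, hm⟩ - 2 * 2 ^ z - (ztS D i j S ω (m + 1) -
        eval (vS D n z i j X S ω) (shrS D n z i j i₁ j₁ S (m + 1) ω) +
        eval v (shrS D n z i j i₁ j₁ S (m + 1) ω))| ≤ _
    rw [e4]
    refine (abs_add_le _ _).trans ?_
    rw [abs_mul, abs_of_pos h0]
    have e5 : 4 * 2 ^ z * |x| ≤ N * (4 * 2 ^ z / 2 ^ X) := by
      calc 4 * 2 ^ z * |x| ≤ 4 * 2 ^ z * (N / 2 ^ X) := mul_le_mul_of_nonneg_left e1 h0.le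
        _ = _ := by ring
    have e6 : ((N + 1 : ℕ) : ℝ) * (4 * 2 ^ z / 2 ^ X) = N * (4 * 2 ^ z / 2 ^ X) +
        4 * 2 ^ z / 2 ^ X := by
      push_cast
      ring
    rw [e6]
    exact add_le_add e5 e2
  have hs : (2 : ℝ) ^ D.g i j c ≤ 2 ^ s * 2 ^ D.g i₂ j₂ c := by
    rw [← pow_add]
    refine pow_le_pow_right₀ (by norm_num) ?_
    have := hL.c2
    change D.g i j c ≤ D.g i₂ j₂ c + s at this
    omega
  have hz1 : ∀ k : Fin (n - 1), |(0 : Fin (n - 1) → ℝ) k| ≤ 1 := fun k => by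
    rw [Pi.zero_apply, abs_zero]
    exact zero_le_one
  have key := hDm c s (D.g i j) (D.g i₁ j₁) (D.g i₂ j₂) _ _ _ _ _ _ _ _ _ _ _ _ _ _ _ _ hT rfl hs
    (cp v) (cq (w v) v) (hu v hv) (hw' v hv) (cp 0) (cq (w 0) 0) (hu 0 hz1) (hw' 0 hz1)
  rw [val _ _ hc1, val _ _ hc1, kvl, kvl]
  refine key.trans (mul_le_mul_of_nonneg_right (mul_le_mul_of_nonneg_right ?_ (by positivity))
    (by positivity))
  exact w_le hz hC₂ (hAc c hc)

/-- The value of a rounded polynomial. -/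
theorem rnd_val {m d X : ℕ} (F : Pl m) (hF : F.totalDegree ≤ d) (v : Fin m → ℝ)
    (hv : ∀ k, |v k| ≤ 1) : |eval v (rnd X F) - eval v F| ≤
      (Pool.Agent.H36.KBX.bx m d).card / 2 ^ X := by
  have h := Pool.Agent.H36.KBX.eval_bound (rnd X F - F) ((totalDegree_sub _ _).trans
    (max_le ((deg_rnd X F).trans hF) hF)) (1 / 2 ^ X) 1 le_rfl (fun α => by
      rw [coeff_sub]
      exact rnd_near X F α) v hv
  rw [map_sub, one_pow, mul_one, mul_one_div] at h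
  exact h

theorem dg_val (X : ℕ) (x : ℝ) : |(dg X x : ℝ) / 2 ^ X - x| ≤ 1 / 2 ^ X := by
  have h0 : (0 : ℝ) < 2 ^ X := by positivity
  have h1 := Int.floor_le ((2 : ℝ) ^ X * x)
  have h2 := Int.lt_floor_add_one ((2 : ℝ) ^ X * x)
  unfold dg
  have e : (⌊(2 : ℝ) ^ X * x⌋ : ℝ) / 2 ^ X - x = ((⌊(2 : ℝ) ^ X * x⌋ : ℝ) - 2 ^ X * x) /
      2 ^ X := by field_simp
  rw [e, abs_div, abs_of_pos h0]
  refine div_le_div_of_nonneg_right ?_ h0.le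
  rw [abs_le]
  constructor <;> linarith

/-- The height of a tied coordinate from the digits and the rounded shape. -/
theorem w_near {D : NDat2} {n K z X i j i₁ j₁ bb : ℕ} {S : D.Ω → ℕ → PN} {ω : D.Ω}
    {pr : ℕ → ℕ × ℕ} {l : Fin (n - 1)} (hS : Sd D n K i j S ω)
    (tG : TriN (D.Ψ i₁ j₁ ω)) (dG : ∀ l, (D.Ψ i₁ j₁ ω l).totalDegree ≤ K)
    (hpr : pr (l + 1) = (i₁, j₁)) (hg : GdsS D n z i j i₁ j₁ bb S (l + 1) ω)
    (v : Fin (n - 1) → ℝ) (hv : ∀ k, |v k| ≤ 1) :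
    |(eval v (rnd X (shsS D n z i j bb S pr ω l)) + (dg X (vS D n z i j X S ω l -
        eval (vS D n z i j X S ω) (rnd X (shsS D n z i j bb S pr ω l))) : ℝ) / 2 ^ X) -
      (vS D n z i j X S ω l -
          (eval (vS D n z i j X S ω) (shrS D n z i j i₁ j₁ S (l + 1) ω) -
            eval v (shrS D n z i j i₁ j₁ S (l + 1) ω)) / (4 * 2 ^ z))| ≤
      ((2 * (Pool.Agent.H36.KBX.bx (n - 1) (dK n K)).card + 1 : ℕ) : ℝ) / 2 ^ X := by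
  have hyb : ∀ l, 1 ≤ l → l ≤ n → |ztS D i j S ω l| ≤ 1 := fun l a b => nat_le (hS.hgt l a b)
  have hvS : ∀ k, |vS D n z i j X S ω k| ≤ 1 := fun k => by
    rw [abs_le]
    have := vS_bd (D := D) (z := z) (X := X) hyb k
    constructor <;> linarith [this.1, this.2]
  have hdeg : (shsS D n z i j bb S pr ω l).totalDegree ≤ dK n K := by
    unfold shsS
    rw [hpr]
    exact (deg_C_mul _ _).trans (deg_shpS hS.tri tG hS.deg dG (by omega))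
  have ev : ∀ v, eval v (shsS D n z i j bb S pr ω l) =
      (eval v (shrS D n z i j i₁ j₁ S (l + 1) ω) -
        coeff 0 (shrS D n z i j i₁ j₁ S (l + 1) ω)) / (4 * 2 ^ z) := by
    intro v
    unfold shsS
    rw [hpr, map_mul, eval_C, shp_gds hg]
    ring
  have a1 := rnd_val (X := X) _ hdeg v hv
  have a2 := rnd_val (X := X) _ hdeg _ hvS
  have a3 := dg_val X (vS D n z i j X S ω l -
        eval (vS D n z i j X S ω) (rnd X (shsS D n z i j bb S pr ω l)))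
  rw [ev v] at a1
  rw [ev (vS D n z i j X S ω)] at a2
  obtain ⟨r, hr⟩ : ∃ r, r = shrS D n z i j i₁ j₁ S (l + 1) ω := ⟨_, rfl⟩
  obtain ⟨R, hR⟩ : ∃ R, R = rnd X (shsS D n z i j bb S pr ω l) := ⟨_, rfl⟩
  obtain ⟨V, hV⟩ : ∃ V, V = vS D n z i j X S ω := ⟨_, rfl⟩
  obtain ⟨c, hc⟩ : ∃ c : ℝ, c = 1 / 2 ^ X := ⟨_, rfl⟩
  obtain ⟨N, hN⟩ : ∃ N : ℕ, N = (Pool.Agent.H36.KBX.bx (n - 1) (dK n K)).card := ⟨_, rfl⟩
  rw [← hr, ← hR, ← hN] at a1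
  rw [← hr, ← hR, ← hN, ← hV] at a2
  rw [← hR, ← hV] at a3
  rw [← hr, ← hR, ← hV, ← hN]
  have e : (eval v R + (dg X (V l - eval V R) : ℝ) / 2 ^ X) -
      (V l - (eval V r - eval v r) / (4 * 2 ^ z)) =
      (eval v R - (eval v r - coeff 0 r) / (4 * 2 ^ z)) +
      ((dg X (V l - eval V R) : ℝ) / 2 ^ X - (V l - eval V R)) -
      (eval V R - (eval V r - coeff 0 r) / (4 * 2 ^ z)) := by ring
  rw [e]
  refine (abs_sub _ _).trans ((add_le_add (abs_add_le _ _) le_rfl).trans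
    ((add_le_add (add_le_add a1 a3) a2).trans (le_of_eq ?_)))
  push_cast
  ring

/-- **Two samples** with the same known data: the coefficients of the shapes are near. -/
theorem cf_two (n K' : ℕ) (C : ℝ) (hC : 0 ≤ C) : ∃ C' : ℝ, 0 ≤ C' ∧ ∀ (D : NDat2)
    (K z X M i j i₁ j₁ i₂ j₂ bb c s : ℕ) (S : D.Ω → ℕ → PN) (pr : ℕ → ℕ × ℕ) (ω ω' : D.Ω),
    K ≤ K' → 1 ≤ z → z + 2 ≤ X → 1 ≤ c → c ≤ n → i < M → j < M → i₁ < M → j₁ < M →
    i₂ < M → j₂ < M → (∀ i j x, TriN (D.G i j x)) →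
    (∀ i j x l, (D.G i j x l).totalDegree ≤ K) →
    Lv3 D c X s (i, j) (i₁, j₁) (i₂, j₂) → Fra D n K' M z C ω → Fra D n K' M z C ω' →
    Sd D n K i j S ω → Sd D n K i j S ω' → Ps D n i₁ j₁ ω → Ps D n i₁ j₁ ω' →
    S ω = S ω' → D.Ψ i₂ j₂ ω = D.Ψ i₂ j₂ ω' → D.X ω 0 = D.X ω' 0 →
    (∀ l : Fin (n - 1), (l : ℕ) + 1 < c → Tid D (i, j) (i₁, j₁) (i₂, j₂) (l + 1) →
      pr (l + 1) = (i₁, j₁) ∧ GdsS D n z i j i₁ j₁ bb S (l + 1) ω ∧
      GdsS D n z i j i₁ j₁ bb S (l + 1) ω' ∧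
      rnd X (shsS D n z i j bb S pr ω l) = rnd X (shsS D n z i j bb S pr ω' l) ∧
      dg X (vS D n z i j X S ω l -
        eval (vS D n z i j X S ω) (rnd X (shsS D n z i j bb S pr ω l))) =
      dg X (vS D n z i j X S ω' l -
        eval (vS D n z i j X S ω') (rnd X (shsS D n z i j bb S pr ω' l)))) →
    ∀ α, α ≠ 0 → |coeff α (shrS D n z i j i₁ j₁ S c ω) -
      coeff α (shrS D n z i j i₁ j₁ S c ω')| ≤ exp (C' * z) * (4 * 2 ^ z / 2 ^ X) * 2 ^ s := by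
  obtain ⟨C₂, hC₂, hco⟩ := core n K'
    (2 * (Pool.Agent.H36.KBX.bx (n - 1) (dK n K')).card + 1) C hC
  obtain ⟨Cb, hCb, hcb⟩ := Pool.Agent.H36.KBX.coef_bound (n - 1) (dK n K')
  have hl : 0 ≤ Real.log (2 * Cb + 1) := Real.log_nonneg (by linarith)
  refine ⟨C₂ + Real.log (2 * Cb + 1), by positivity, ?_⟩
  intro D K z X M i j i₁ j₁ i₂ j₂ bb c s S pr ω ω' hK hz hX hc1 hc hi hj hi₁ hj₁ hi₂ hj₂ tG dG hL
    hF hF' hS hS' h₁ h₁' eS e2 e0 ht α hα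
  have hz1 : (1 : ℝ) ≤ z := by exact_mod_cast hz
  have dG' : ∀ i j x l, (D.G i j x l).totalDegree ≤ K' := fun i j x l => (dG i j x l).trans hK
  have hSK : Sd D n K' i j S ω := ⟨hS.tri, fun l => (hS.deg l).trans hK, hS.hgt, hS.agr⟩
  have hSK' : Sd D n K' i j S ω' := ⟨hS'.tri, fun l => (hS'.deg l).trans hK, hS'.hgt, hS'.agr⟩
  obtain ⟨w, hw⟩ : ∃ w : (Fin (n - 1) → ℝ) → Fin (n - 1) → ℝ, w = fun v l =>
    eval v (rnd X (shsS D n z i j bb S pr ω l)) + (dg X (vS D n z i j X S ω l -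
        eval (vS D n z i j X S ω) (rnd X (shsS D n z i j bb S pr ω l))) : ℝ) / 2 ^ X := ⟨_, rfl⟩
  obtain ⟨B, hB⟩ : ∃ B : ℝ, B = exp (C₂ * z) * (4 * 2 ^ z / 2 ^ X) * 2 ^ s := ⟨_, rfl⟩
  have c1 := hco D K z X M i j i₁ j₁ i₂ j₂ c s S ω w hK hz hX hc1 hc hi hj hi₁ hj₁ hi₂ hj₂ tG dG
    hL hF hS h₁ (fun l hl hti v hv => by
      obtain ⟨t1, t2, t3, t4, t5⟩ := ht l hl hti
      have := w_near (X := X) hSK (tG _ _ _) (fun l => dG' _ _ _ l) t1 t2 v hv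
      rw [hw]
      exact this)
  have c2 := hco D K z X M i j i₁ j₁ i₂ j₂ c s S ω' w hK hz hX hc1 hc hi hj hi₁ hj₁ hi₂ hj₂ tG dG
    hL hF' hS' h₁' (fun l hl hti v hv => by
      obtain ⟨t1, t2, t3, t4, t5⟩ := ht l hl hti
      have := w_near (X := X) hSK' (tG _ _ _) (fun l => dG' _ _ _ l) t1 t3 v hv
      rw [← t5, ← t4] at this
      rw [hw]
      exact this)
  have hk : ∀ w v, kn D n z i j i₁ j₁ i₂ j₂ c S ω w v = kn D n z i j i₁ j₁ i₂ j₂ c S ω' w v := by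
    intro w v
    unfold kn
    rw [kpt_congr hS.tri eS e2 e0, eS, e2]
  obtain ⟨Q, hQ⟩ : ∃ Q : Pl (n - 1), Q = (shrS D n z i j i₁ j₁ S c ω -
    MvPolynomial.C (eval 0 (shrS D n z i j i₁ j₁ S c ω))) - (shrS D n z i j i₁ j₁ S c ω' -
    MvPolynomial.C (eval 0 (shrS D n z i j i₁ j₁ S c ω'))) := ⟨_, rfl⟩
  have dsh : ∀ ω, Sd D n K' i j S ω → (shrS D n z i j i₁ j₁ S c ω -
      MvPolynomial.C (eval 0 (shrS D n z i j i₁ j₁ S c ω))).totalDegree ≤ dK n K' := by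
    intro ω h
    refine (totalDegree_sub _ _).trans (max_le (deg_shrS h.tri (tG _ _ _) h.deg
      (fun k => dG' _ _ _ k) hc) ?_)
    rw [totalDegree_C]
    exact Nat.zero_le _
  have key := hcb Q (2 * B) (by
    rw [hQ]
    exact (totalDegree_sub _ _).trans (max_le (dsh ω hSK) (dsh ω' hSK'))) (fun v hv => by
    have a1 := c1 v hv
    have a2 := c2 v hv
    rw [hk, hk] at a1
    rw [← hB] at a1 a2
    rw [hQ, map_sub, map_sub, map_sub, eval_C, eval_C]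
    obtain ⟨x, hx⟩ : ∃ x, x = (eval v (shrS D n z i j i₁ j₁ S c ω) -
      kn D n z i j i₁ j₁ i₂ j₂ c S ω' (w v) v) - (eval 0 (shrS D n z i j i₁ j₁ S c ω) -
      kn D n z i j i₁ j₁ i₂ j₂ c S ω' (w 0) 0) := ⟨_, rfl⟩
    obtain ⟨x', hx'⟩ : ∃ x', x' = (eval v (shrS D n z i j i₁ j₁ S c ω') -
      kn D n z i j i₁ j₁ i₂ j₂ c S ω' (w v) v) - (eval 0 (shrS D n z i j i₁ j₁ S c ω') -
      kn D n z i j i₁ j₁ i₂ j₂ c S ω' (w 0) 0) := ⟨_, rfl⟩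
    rw [← hx] at a1
    rw [← hx'] at a2
    have e : eval v (shrS D n z i j i₁ j₁ S c ω) - eval 0 (shrS D n z i j i₁ j₁ S c ω) -
        (eval v (shrS D n z i j i₁ j₁ S c ω') - eval 0 (shrS D n z i j i₁ j₁ S c ω')) =
        x - x' := by
      rw [hx, hx']
      ring
    rw [e]
    exact (abs_sub _ _).trans (by linarith)) α
  have h1 : coeff α Q = coeff α (shrS D n z i j i₁ j₁ S c ω) -
      coeff α (shrS D n z i j i₁ j₁ S c ω') := by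
    rw [hQ, coeff_sub, coeff_sub, coeff_sub, coeff_C, coeff_C, if_neg (Ne.symm hα),
      if_neg (Ne.symm hα), sub_zero, sub_zero]
  rw [← h1]
  refine key.trans ?_
  have h2 : 2 * Cb ≤ exp (Real.log (2 * Cb + 1) * z) := by
    calc 2 * Cb ≤ 2 * Cb + 1 := by linarith
      _ = exp (Real.log (2 * Cb + 1)) := (exp_log (by linarith)).symm
      _ ≤ _ := exp_le_exp.2 (by nlinarith)
  have hB0 : 0 ≤ B := by rw [hB]; positivity
  have h3 : exp ((C₂ + Real.log (2 * Cb + 1)) * z) * (4 * 2 ^ z / 2 ^ X) * 2 ^ s =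
      exp (Real.log (2 * Cb + 1) * z) * B := by
    rw [hB, add_mul, exp_add]
    ring
  rw [h3]
  calc Cb * (2 * B) = 2 * Cb * B := by ring
    _ ≤ _ := mul_le_mul_of_nonneg_right h2 hB0

end Pool.TA35
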