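import Pool.Agent.H41.FRM.Cmp2

/-!
# Composite sheets at two places: ties

Three places: `gb` with the system `Fb`, `g₁` with `F₁` (where the tied and the deeper coordinates
are thin), `g₂` with `F₂` (where only the deeper coordinates `th ∧ ¬ ti` are thin). The composite
point `β` over the second place, and the point `b` which is built from the systems at the first and
at the third place and from the heights `w` of the tied coordinates: they are near, and the sheet
of `c` at `g₁` is the sheet at `g₂` along `b`, up to a constant.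
-/

set_option autoImplicit false

namespace Pool.TA35

open Finset Real MvPolynomial
open Pool.STAT Pool.MIC.Frm Pool.FRM

/-- Three places. -/
structure T3 (K c : ℕ) (gb g₁ g₂ : ℕ → ℕ) (Fb F₁ F₂ : ℕ → PN) (th ti : ℕ → Prop)
    (E ε : ℝ) : Prop where
  tr : Tr K c gb g₁ Fb F₁ th E ε
  p : Nb K c g₂ F₂ E
  sm : ∀ l, 1 ≤ l → l < c → ¬ th l → (2 : ℝ) ^ g₂ l ≤ ε * 2 ^ gb l
  dp : ∀ l, 1 ≤ l → l < c → th l → ¬ ti l → (2 : ℝ) ^ gb l ≤ ε * 2 ^ g₂ l
  tg : ∀ l, 1 ≤ l → l < c → ti l → th l ∧ g₂ l ≤ gb l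

/-- The chart coordinates `b` of the point with the fat coordinates `u` and the heights `w` of the
tied coordinates, on the sheets of the third place for the others. -/
def Cq (c : ℕ) (gb : ℕ → ℕ) (Fb F₂ : ℕ → PN) (th ti : ℕ → Prop) (u w b : ℕ → ℝ) : Prop :=
  b 0 = 0 ∧ ∀ l, 1 ≤ l → l < c → (¬ th l → b l = eval b (Fb l) + u l / 2 ^ gb l) ∧
    (th l → ¬ ti l → b l = eval b (F₂ l)) ∧ (ti l → b l = eval b (Fb l) + w l / 2 ^ gb l)

theorem pw_mono {W : ℝ} (hW : 4 ≤ W) {a b : ℕ} (h : a ≤ b) : W ^ a ≤ W ^ b :=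
  pow_le_pow_right₀ (by linarith) h

/-- `x + y ≤ W ^ (a + 1)`. -/
theorem pw_add {W x y : ℝ} (hW : 4 ≤ W) {a : ℕ} (hx : x ≤ W ^ a) (hy : y ≤ W ^ a) :
    x + y ≤ W ^ (a + 1) := by
  rw [pow_succ]
  have : 0 < W ^ a := by positivity
  nlinarith

theorem lip_pw {K d D : ℕ} {E W : ℝ} (hE : 1 ≤ E) (hW : W = 4 * E) :
    K * (W ^ d) ^ K * E * W ^ D ≤ W ^ (K + d * K + 1 + D) := by
  have hW4 : 4 ≤ W := by linarith
  have h0 : (K : ℝ) ≤ W ^ K := by
    calc (K : ℝ) ≤ 2 ^ K := by exact_mod_cast (Nat.lt_two_pow_self (n := K)).le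
      _ ≤ W ^ K := pow_le_pow_left₀ (by norm_num) (by linarith) _
  have h1 : E ≤ W := by linarith
  have h2 : K * (W ^ d) ^ K * E ≤ W ^ K * (W ^ d) ^ K * W := by
    refine mul_le_mul (mul_le_mul_of_nonneg_right h0 (by positivity)) h1 (by linarith)
      (by positivity)
  calc K * (W ^ d) ^ K * E * W ^ D ≤ W ^ K * (W ^ d) ^ K * W * W ^ D :=
        mul_le_mul_of_nonneg_right h2 (by positivity)
    _ = W ^ (K + d * K + 1 + D) := by
        rw [← pow_mul]
        ring

theorem val_pw {K d : ℕ} {E W : ℝ} (hE : 1 ≤ E) (hW : W = 4 * E) :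
    (W ^ d) ^ K * E ≤ W ^ (d * K + 1) := by
  have hW4 : 4 ≤ W := by linarith
  rw [← pow_mul, pow_succ]
  exact mul_le_mul_of_nonneg_left (by linarith) (by positivity)

/-- **The two points are near.** -/
theorem near2 (K c D₀ : ℕ) : ∀ m ≤ c, ∃ D : ℕ, ∀ (gb g₁ g₂ : ℕ → ℕ) (Fb F₁ F₂ : ℕ → PN)
    (th ti : ℕ → Prop) (E ε W : ℝ) (u w β b : ℕ → ℝ), T3 K c gb g₁ g₂ Fb F₁ F₂ th ti E ε →
    W = 4 * E → Cp c gb Fb F₁ th u β → Cq c gb Fb F₂ th ti u w b →
    (∀ l, 1 ≤ l → l < c → ¬ th l → |u l| ≤ E) →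
    (∀ l, 1 ≤ l → l < c → ti l → |2 ^ gb l * eval β (Fb l) + w l| ≤ W ^ D₀ * ε) →
    ∀ l < m, |b l - β l| ≤ W ^ D * ε / 2 ^ gb l ∧ |b l| ≤ W ^ D / 2 ^ gb l ∧
      |b l| ≤ W ^ D / 2 ^ g₂ l := by
  intro m
  induction m with
  | zero =>
    intro _
    exact ⟨0, fun gb g₁ g₂ Fb F₁ F₂ th ti E ε W u w β b _ _ _ _ _ _ l hl =>
      absurd hl (Nat.not_lt_zero _)⟩
  | succ m ih =>
    intro hm
    obtain ⟨D, h⟩ := ih (by omega)
    obtain ⟨D₁, hD₁⟩ : ∃ D₁, D₁ = D + dd K c := ⟨_, rfl⟩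
    obtain ⟨D₂, hD₂⟩ : ∃ D₂, D₂ = K + D₁ * K + 1 + D₁ + D₀ := ⟨_, rfl⟩
    refine ⟨D₂ + 3, ?_⟩
    intro gb g₁ g₂ Fb F₁ F₂ th ti E ε W u w β b H hW hβ hb hu hw
    have hE := H.tr.e1
    have hε := H.tr.eps
    have hε1 := H.tr.eps1
    have hW4 : 4 ≤ W := by linarith
    have hbd := H.tr.bd hW hβ hu
    have ih' := h gb g₁ g₂ Fb F₁ F₂ th ti E ε W u w β b H hW hβ hb hu hw
    have hDD : W ^ D ≤ W ^ D₁ := pw_mono hW4 (by omega)
    have hdd : ∀ l < c, W ^ dd K l ≤ W ^ D₁ := fun l hl => pw_mono hW4 (by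
      have := dd_mono (K := K) hl.le
      omega)
    have hB : (1 : ℝ) ≤ W ^ D₁ := one_le_pow₀ (by linarith)
    have h12 : W ^ D₁ ≤ W ^ D₂ := pw_mono hW4 (by omega)
    have hD₂0 : 0 < W ^ D₂ := by positivity
    intro l hl
    rcases Nat.lt_or_ge l m with hl' | hl'
    · obtain ⟨a1, a2, a3⟩ := ih' l hl'
      have e : W ^ D ≤ W ^ (D₂ + 3) := hDD.trans (h12.trans (pw_mono hW4 (by omega)))
      exact ⟨a1.trans (div_le_div_of_nonneg_right (mul_le_mul_of_nonneg_right e hε)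
        (by positivity)), a2.trans (div_le_div_of_nonneg_right e (by positivity)),
        a3.trans (div_le_div_of_nonneg_right e (by positivity))⟩
    obtain rfl : l = m := by omega
    rcases Nat.eq_zero_or_pos l with h0 | h0
    · subst h0
      rw [hb.1, hβ.1, sub_self, abs_zero]
      refine ⟨?_, ?_, ?_⟩ <;> positivity
    obtain ⟨c1, c2, c3⟩ := hb.2 l h0 (by omega)
    obtain ⟨d1, d2⟩ := hβ.2 l h0 (by omega)
    -- the difference of the values of `Fb`
    have lipb : |eval b (Fb l) - eval β (Fb l)| ≤ W ^ D₂ * ε / 2 ^ gb l := by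
      refine (H.tr.b.lip (l := l) (by omega) hB (δ := W ^ D₁ * ε) (by positivity)
        (fun k hk => ((ih' k hk).2.1).trans (div_le_div_of_nonneg_right hDD (by positivity)))
        (fun k hk => ((hbd k (by omega)).1).trans (div_le_div_of_nonneg_right
          (hdd k (by omega)) (by positivity)))
        (fun k hk => ((ih' k hk).1).trans (div_le_div_of_nonneg_right
          (mul_le_mul_of_nonneg_right hDD hε) (by positivity)))).trans ?_
      refine div_le_div_of_nonneg_right ?_ (by positivity)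
      have e1 := lip_pw (K := K) (d := D₁) (D := D₁) hE hW
      have e2 : W ^ (K + D₁ * K + 1 + D₁) ≤ W ^ D₂ := pw_mono hW4 (by omega)
      calc K * (W ^ D₁) ^ K * E * (W ^ D₁ * ε) = (K * (W ^ D₁) ^ K * E * W ^ D₁) * ε := by ring
        _ ≤ W ^ D₂ * ε := mul_le_mul_of_nonneg_right (e1.trans e2) hε
    have hβb := (hbd l (by omega)).1
    have hβ1 := (hbd l (by omega)).2
    -- from the distance to the sizes
    have siz : |b l - β l| ≤ W ^ (D₂ + 1) * ε / 2 ^ gb l → |b l| ≤ W ^ (D₂ + 3) / 2 ^ gb l := by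
      intro hd
      have e1 : |b l| ≤ |b l - β l| + |β l| := by
        have := abs_add_le (b l - β l) (β l)
        rwa [sub_add_cancel] at this
      refine (e1.trans (add_le_add hd hβb)).trans ?_
      rw [← add_div]
      refine div_le_div_of_nonneg_right ?_ (by positivity)
      have e2 : W ^ (D₂ + 1) * ε ≤ W ^ (D₂ + 1) := mul_le_of_le_one_right (by positivity) hε1
      have e3 : W ^ dd K l ≤ W ^ (D₂ + 1) := (hdd l (by omega)).trans (h12.trans
        (pw_mono hW4 (by omega)))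
      exact (pw_add hW4 e2 e3).trans (pw_mono hW4 (by omega))
    have up1 : |b l - β l| ≤ W ^ (D₂ + 1) * ε / 2 ^ gb l →
        |b l - β l| ≤ W ^ (D₂ + 3) * ε / 2 ^ gb l := fun hd => hd.trans
      (div_le_div_of_nonneg_right (mul_le_mul_of_nonneg_right (pw_mono hW4 (by omega)) hε)
        (by positivity))
    by_cases ht : th l
    · by_cases hti : ti l
      · -- tied
        have hw' := hw l h0 (by omega) hti
        have e1 : b l - β l = (eval b (Fb l) - eval β (Fb l)) +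
            (2 ^ gb l * eval β (Fb l) + w l) / 2 ^ gb l - β l := by
          rw [c3 hti]
          field_simp
          ring
        have e2 : |(2 ^ gb l * eval β (Fb l) + w l) / 2 ^ gb l| ≤ W ^ D₂ * ε / 2 ^ gb l := by
          rw [abs_div, abs_of_pos (by positivity : (0 : ℝ) < 2 ^ gb l)]
          refine div_le_div_of_nonneg_right (hw'.trans ?_) (by positivity)
          exact mul_le_mul_of_nonneg_right (pw_mono hW4 (by omega)) hε
        have e3 : |β l| ≤ W ^ D₂ * ε / 2 ^ gb l := by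
          refine hβ1.trans ?_
          have e4 := H.tr.th_le l h0 (by omega) ht
          rw [div_le_div_iff₀ (by positivity) (by positivity)]
          calc W ^ dd K l * 2 ^ gb l ≤ W ^ D₂ * (ε * 2 ^ g₁ l) :=
                mul_le_mul ((hdd l (by omega)).trans h12) e4 (by positivity) (by positivity)
            _ = W ^ D₂ * ε * 2 ^ g₁ l := by ring
        have hd : |b l - β l| ≤ W ^ (D₂ + 1) * ε / 2 ^ gb l := by
          rw [e1]
          refine (abs_sub _ _).trans ((add_le_add ((abs_add_le _ _).trans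
            (add_le_add lipb e2)) e3).trans ?_)
          rw [← add_div, ← add_div]
          refine div_le_div_of_nonneg_right ?_ (by positivity)
          rw [pow_succ]
          have : 0 ≤ W ^ D₂ * ε := by positivity
          nlinarith
        refine ⟨up1 hd, siz hd, (siz hd).trans (div_le_div_of_nonneg_left (by positivity)
          (by positivity) ?_)⟩
        exact pow_le_pow_right₀ (by norm_num) (H.tg l h0 (by omega) hti).2
      · -- deeper
        have e1 : |b l| ≤ W ^ D₂ / 2 ^ g₂ l := by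
          rw [c2 ht hti]
          refine (H.p.val (l := l) (by omega) hB (fun k hk => ((ih' k hk).2.2).trans
            (div_le_div_of_nonneg_right hDD (by positivity)))).trans ?_
          refine div_le_div_of_nonneg_right ((val_pw hE hW).trans (pw_mono hW4 ?_))
            (by positivity)
          omega
        have e2 := H.dp l h0 (by omega) ht hti
        have e3 : |b l| ≤ W ^ D₂ * ε / 2 ^ gb l := by
          refine e1.trans ?_
          rw [div_le_div_iff₀ (by positivity) (by positivity)]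
          calc W ^ D₂ * 2 ^ gb l ≤ W ^ D₂ * (ε * 2 ^ g₂ l) :=
                mul_le_mul_of_nonneg_left e2 (by positivity)
            _ = W ^ D₂ * ε * 2 ^ g₂ l := by ring
        have e4 : |β l| ≤ W ^ D₂ * ε / 2 ^ gb l := by
          refine hβ1.trans ?_
          have e4 := H.tr.th_le l h0 (by omega) ht
          rw [div_le_div_iff₀ (by positivity) (by positivity)]
          calc W ^ dd K l * 2 ^ gb l ≤ W ^ D₂ * (ε * 2 ^ g₁ l) :=
                mul_le_mul ((hdd l (by omega)).trans h12) e4 (by positivity) (by positivity)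
            _ = W ^ D₂ * ε * 2 ^ g₁ l := by ring
        have hd : |b l - β l| ≤ W ^ (D₂ + 1) * ε / 2 ^ gb l := by
          refine (abs_sub _ _).trans ((add_le_add e3 e4).trans ?_)
          rw [← add_div]
          refine div_le_div_of_nonneg_right ?_ (by positivity)
          rw [pow_succ]
          have : 0 ≤ W ^ D₂ * ε := by positivity
          nlinarith
        exact ⟨up1 hd, siz hd, e1.trans (div_le_div_of_nonneg_right (pw_mono hW4 (by omega))
          (by positivity))⟩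
    · -- fat
      have e1 : b l - β l = eval b (Fb l) - eval β (Fb l) := by
        rw [c1 ht, d2 ht]
        ring
      have hd : |b l - β l| ≤ W ^ (D₂ + 1) * ε / 2 ^ gb l := by
        rw [e1]
        exact lipb.trans (div_le_div_of_nonneg_right (mul_le_mul_of_nonneg_right
          (pw_mono hW4 (by omega)) hε) (by positivity))
      refine ⟨up1 hd, siz hd, (siz hd).trans (div_le_div_of_nonneg_left (by positivity)
        (by positivity) ?_)⟩
      have e2 := H.sm l h0 (by omega) ht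
      have e3 : ε * (2 : ℝ) ^ gb l ≤ 1 * 2 ^ gb l := mul_le_mul_of_nonneg_right hε1 (by positivity)
      linarith

/-- Two known points at the scale of the third place. -/
theorem dif2 (K c D₀ : ℕ) : ∀ m ≤ c, ∃ D : ℕ, ∀ (gb g₁ g₂ : ℕ → ℕ) (Fb F₁ F₂ : ℕ → PN)
    (th ti : ℕ → Prop) (E ε W : ℝ) (u w β b u' w' β' b' : ℕ → ℝ),
    T3 K c gb g₁ g₂ Fb F₁ F₂ th ti E ε → W = 4 * E →
    Cp c gb Fb F₁ th u β → Cq c gb Fb F₂ th ti u w b →
    (∀ l, 1 ≤ l → l < c → ¬ th l → |u l| ≤ E) →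
    (∀ l, 1 ≤ l → l < c → ti l → |2 ^ gb l * eval β (Fb l) + w l| ≤ W ^ D₀ * ε) →
    Cp c gb Fb F₁ th u' β' → Cq c gb Fb F₂ th ti u' w' b' →
    (∀ l, 1 ≤ l → l < c → ¬ th l → |u' l| ≤ E) →
    (∀ l, 1 ≤ l → l < c → ti l → |2 ^ gb l * eval β' (Fb l) + w' l| ≤ W ^ D₀ * ε) →
    ∀ l < m, |b l - b' l| ≤ W ^ D * ε / 2 ^ g₂ l := by
  obtain ⟨Dn, hn⟩ := near2 K c D₀ c le_rfl
  intro m
  induction m with
  | zero =>
    intro _
    exact ⟨0, fun gb g₁ g₂ Fb F₁ F₂ th ti E ε W u w β b u' w' β' b' _ _ _ _ _ _ _ _ _ _ l hl =>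
      absurd hl (Nat.not_lt_zero _)⟩
  | succ m ih =>
    intro hm
    obtain ⟨D, h⟩ := ih (by omega)
    obtain ⟨D₁, hD₁⟩ : ∃ D₁, D₁ = D + Dn + dd K c := ⟨_, rfl⟩
    refine ⟨K + D₁ * K + 1 + D₁ + 2, ?_⟩
    intro gb g₁ g₂ Fb F₁ F₂ th ti E ε W u w β b u' w' β' b' H hW hβ hb hu hw hβ' hb' hu' hw'
    have hE := H.tr.e1
    have hε := H.tr.eps
    have hε1 := H.tr.eps1
    have hW4 : 4 ≤ W := by linarith
    have hn1 := hn gb g₁ g₂ Fb F₁ F₂ th ti E ε W u w β b H hW hβ hb hu hw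
    have hn2 := hn gb g₁ g₂ Fb F₁ F₂ th ti E ε W u' w' β' b' H hW hβ' hb' hu' hw'
    have hbd := H.tr.bd hW hβ hu
    have hbd' := H.tr.bd hW hβ' hu'
    have ih' := h gb g₁ g₂ Fb F₁ F₂ th ti E ε W u w β b u' w' β' b' H hW hβ hb hu hw hβ' hb' hu'
      hw'
    have hDD : W ^ D ≤ W ^ D₁ := pw_mono hW4 (by omega)
    have hDn : W ^ Dn ≤ W ^ D₁ := pw_mono hW4 (by omega)
    have hB : (1 : ℝ) ≤ W ^ D₁ := one_le_pow₀ (by linarith)
    have hdd : ∀ l < c, W ^ dd K l ≤ W ^ D₁ := fun l hl => pw_mono hW4 (by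
      have := dd_mono (K := K) hl.le
      omega)
    have h1f : W ^ D₁ ≤ W ^ (K + D₁ * K + 1 + D₁) := pw_mono hW4 (by omega)
    have hfin : ∀ (x : ℝ) (l : ℕ), x ≤ W ^ (D₁ + 1) * ε / 2 ^ g₂ l →
        x ≤ W ^ (K + D₁ * K + 1 + D₁ + 2) * ε / 2 ^ g₂ l := fun x l hx => hx.trans
      (div_le_div_of_nonneg_right (mul_le_mul_of_nonneg_right (pw_mono hW4 (by omega)) hε)
        (by positivity))
    intro l hl
    rcases Nat.lt_or_ge l m with hl' | hl'
    · refine hfin _ l ((ih' l hl').trans (div_le_div_of_nonneg_right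
        (mul_le_mul_of_nonneg_right (hDD.trans (pw_mono hW4 (by omega))) hε) (by positivity)))
    obtain rfl : l = m := by omega
    rcases Nat.eq_zero_or_pos l with h0 | h0
    · subst h0
      rw [hb.1, hb'.1, sub_self, abs_zero]
      positivity
    obtain ⟨c1, c2, c3⟩ := hb.2 l h0 (by omega)
    obtain ⟨c1', c2', c3'⟩ := hb'.2 l h0 (by omega)
    have hW1 : 2 * W ^ D₁ ≤ W ^ (D₁ + 1) := by
      rw [pow_succ]
      have : 0 < W ^ D₁ := by positivity
      nlinarith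
    by_cases ht : th l
    · by_cases hti : ti l
      · -- tied
        have e4 := H.tr.th_le l h0 (by omega) ht
        have one : ∀ (β b : ℕ → ℝ), |b l - β l| ≤ W ^ Dn * ε / 2 ^ gb l →
            |β l| ≤ W ^ dd K l / 2 ^ g₁ l → |b l| ≤ 2 * W ^ D₁ * ε / 2 ^ g₂ l := by
          intro β b a1 a2
          have e1 : |b l| ≤ |b l - β l| + |β l| := by
            have := abs_add_le (b l - β l) (β l)
            rwa [sub_add_cancel] at this
          have e3 : |β l| ≤ W ^ D₁ * ε / 2 ^ gb l := by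
            refine a2.trans ?_
            rw [div_le_div_iff₀ (by positivity) (by positivity)]
            calc W ^ dd K l * 2 ^ gb l ≤ W ^ D₁ * (ε * 2 ^ g₁ l) :=
                  mul_le_mul (hdd l (by omega)) e4 (by positivity) (by positivity)
              _ = W ^ D₁ * ε * 2 ^ g₁ l := by ring
          have e5 : |b l - β l| ≤ W ^ D₁ * ε / 2 ^ gb l := a1.trans
            (div_le_div_of_nonneg_right (mul_le_mul_of_nonneg_right hDn hε) (by positivity))
          have e6 : W ^ D₁ * ε / 2 ^ gb l + W ^ D₁ * ε / 2 ^ gb l = 2 * W ^ D₁ * ε / 2 ^ gb l := by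
            ring
          refine (e1.trans ((add_le_add e5 e3).trans (le_of_eq e6))).trans ?_
          refine div_le_div_of_nonneg_left (by positivity) (by positivity) ?_
          exact pow_le_pow_right₀ (by norm_num) (H.tg l h0 (by omega) hti).2
        have f1 := one β b (hn1 l (by omega)).1 (hbd l (by omega)).2
        have f2 := one β' b' (hn2 l (by omega)).1 (hbd' l (by omega)).2
        refine ((abs_sub _ _).trans (add_le_add f1 f2)).trans ?_
        rw [← add_div]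
        refine div_le_div_of_nonneg_right ?_ (by positivity)
        have e7 : 4 * W ^ D₁ ≤ W ^ (K + D₁ * K + 1 + D₁ + 2) := by
          have g1 : 4 * W ^ D₁ ≤ W ^ (D₁ + 1) := by
            rw [pow_succ]
            have : 0 < W ^ D₁ := by positivity
            nlinarith
          exact g1.trans (pw_mono hW4 (by omega))
        have := mul_le_mul_of_nonneg_right e7 hε
        linarith
      · -- deeper
        rw [c2 ht hti, c2' ht hti]
        refine (H.p.lip (l := l) (by omega) hB (δ := W ^ D₁ * ε) (by positivity)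
          (fun k hk => ((hn1 k (by omega)).2.2).trans (div_le_div_of_nonneg_right hDn
            (by positivity)))
          (fun k hk => ((hn2 k (by omega)).2.2).trans (div_le_div_of_nonneg_right hDn
            (by positivity)))
          (fun k hk => (ih' k hk).trans (div_le_div_of_nonneg_right
            (mul_le_mul_of_nonneg_right hDD hε) (by positivity)))).trans ?_
        refine div_le_div_of_nonneg_right ?_ (by positivity)
        have e1 := lip_pw (K := K) (d := D₁) (D := D₁) hE hW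
        have e2 : W ^ (K + D₁ * K + 1 + D₁) ≤ W ^ (K + D₁ * K + 1 + D₁ + 2) :=
          pw_mono hW4 (by omega)
        calc K * (W ^ D₁) ^ K * E * (W ^ D₁ * ε) = (K * (W ^ D₁) ^ K * E * W ^ D₁) * ε := by ring
          _ ≤ _ := mul_le_mul_of_nonneg_right (e1.trans e2) hε
    · -- fat
      have e2 := H.sm l h0 (by omega) ht
      have f1 := (hn1 l (by omega)).2.1
      have f2 := (hn2 l (by omega)).2.1
      refine hfin _ l (((abs_sub _ _).trans (add_le_add f1 f2)).trans ?_)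
      rw [← add_div, div_le_div_iff₀ (by positivity) (by positivity)]
      have e3 : W ^ Dn + W ^ Dn ≤ W ^ (D₁ + 1) := by linarith
      calc (W ^ Dn + W ^ Dn) * 2 ^ g₂ l ≤ W ^ (D₁ + 1) * (ε * 2 ^ gb l) :=
            mul_le_mul e3 e2 (by positivity) (by positivity)
        _ = W ^ (D₁ + 1) * ε * 2 ^ gb l := by ring

/-- **The sheet of `c` at the second place and the sheet at the third place along the known
point.** -/
theorem main2 (K c D₀ : ℕ) : ∃ D : ℕ, ∀ (s : ℕ) (gb g₁ g₂ : ℕ → ℕ) (Fb F₁ F₂ : ℕ → PN)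
    (th ti : ℕ → Prop) (E ε W : ℝ) (u w β b u' w' β' b' : ℕ → ℝ),
    T3 K c gb g₁ g₂ Fb F₁ F₂ th ti E ε → W = 4 * E → (2 : ℝ) ^ gb c ≤ 2 ^ s * 2 ^ g₂ c →
    Cp c gb Fb F₁ th u β → Cq c gb Fb F₂ th ti u w b →
    (∀ l, 1 ≤ l → l < c → ¬ th l → |u l| ≤ E) →
    (∀ l, 1 ≤ l → l < c → ti l → |2 ^ gb l * eval β (Fb l) + w l| ≤ W ^ D₀ * ε) →
    Cp c gb Fb F₁ th u' β' → Cq c gb Fb F₂ th ti u' w' b' →
    (∀ l, 1 ≤ l → l < c → ¬ th l → |u' l| ≤ E) →
    (∀ l, 1 ≤ l → l < c → ti l → |2 ^ gb l * eval β' (Fb l) + w' l| ≤ W ^ D₀ * ε) →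
    |(2 ^ gb c * (eval β (F₁ c) - eval β (Fb c)) - 2 ^ gb c * (eval b (F₂ c) - eval b (Fb c))) -
      (2 ^ gb c * (eval β' (F₁ c) - eval β' (Fb c)) -
        2 ^ gb c * (eval b' (F₂ c) - eval b' (Fb c)))| ≤ W ^ D * ε * 2 ^ s := by
  obtain ⟨Dn, hn⟩ := near2 K c D₀ c le_rfl
  obtain ⟨Dd, hd⟩ := dif2 K c D₀ c le_rfl
  obtain ⟨D₁, hD₁⟩ : ∃ D₁, D₁ = Dd + Dn + dd K (c + 1) := ⟨_, rfl⟩
  refine ⟨K + D₁ * K + 1 + D₁ + 1, ?_⟩
  intro s gb g₁ g₂ Fb F₁ F₂ th ti E ε W u w β b u' w' β' b' H hW hs hβ hb hu hw hβ' hb' hu' hw'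
  have hE := H.tr.e1
  have hε := H.tr.eps
  have hε1 := H.tr.eps1
  have hW4 : 4 ≤ W := by linarith
  have hn1 := hn gb g₁ g₂ Fb F₁ F₂ th ti E ε W u w β b H hW hβ hb hu hw
  have hn2 := hn gb g₁ g₂ Fb F₁ F₂ th ti E ε W u' w' β' b' H hW hβ' hb' hu' hw'
  have hbd := H.tr.bd hW hβ hu
  have hbd' := H.tr.bd hW hβ' hu'
  have hdf := hd gb g₁ g₂ Fb F₁ F₂ th ti E ε W u w β b u' w' β' b' H hW hβ hb hu hw hβ' hb' hu' hw'
  have htop := H.tr.top hW hβ hβ' hu hu'
  have hDd : W ^ Dd ≤ W ^ D₁ := pw_mono hW4 (by omega)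
  have hDn : W ^ Dn ≤ W ^ D₁ := pw_mono hW4 (by omega)
  have hdc : W ^ dd K (c + 1) ≤ W ^ D₁ := pw_mono hW4 (by omega)
  have hdd : ∀ l < c, W ^ dd K l ≤ W ^ D₁ := fun l hl => pw_mono hW4 (by
    have := dd_mono (K := K) (show l ≤ c + 1 by omega)
    omega)
  have hB : (1 : ℝ) ≤ W ^ D₁ := one_le_pow₀ (by linarith)
  obtain ⟨V, hV⟩ : ∃ V : ℝ, V = W ^ (K + D₁ * K + 1 + D₁) := ⟨_, rfl⟩
  have hV0 : 0 < V := by rw [hV]; positivity
  have e1 := lip_pw (K := K) (d := D₁) (D := D₁) hE hW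
  rw [← hV] at e1
  have hgc : (0 : ℝ) < 2 ^ gb c := by positivity
  have h2s : (1 : ℝ) ≤ 2 ^ s := one_le_pow₀ (by norm_num)
  -- `Fb`
  have lb : ∀ β b : ℕ → ℝ, (∀ l < c, |b l - β l| ≤ W ^ Dn * ε / 2 ^ gb l ∧
      |b l| ≤ W ^ Dn / 2 ^ gb l ∧ |b l| ≤ W ^ Dn / 2 ^ g₂ l) →
      (∀ l < c, |β l| ≤ W ^ dd K l / 2 ^ gb l ∧ |β l| ≤ W ^ dd K l / 2 ^ g₁ l) →
      2 ^ gb c * |eval b (Fb c) - eval β (Fb c)| ≤ V * ε := by
    intro β b h1 h2
    have e2 := H.tr.b.lip (l := c) le_rfl hB (δ := W ^ D₁ * ε) (by positivity)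
      (β := b) (β' := β)
      (fun k hk => ((h1 k hk).2.1).trans (div_le_div_of_nonneg_right hDn (by positivity)))
      (fun k hk => ((h2 k hk).1).trans (div_le_div_of_nonneg_right (hdd k hk) (by positivity)))
      (fun k hk => ((h1 k hk).1).trans (div_le_div_of_nonneg_right
        (mul_le_mul_of_nonneg_right hDn hε) (by positivity)))
    calc 2 ^ gb c * |eval b (Fb c) - eval β (Fb c)| ≤
          2 ^ gb c * (K * (W ^ D₁) ^ K * E * (W ^ D₁ * ε) / 2 ^ gb c) :=
          mul_le_mul_of_nonneg_left e2 hgc.le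
      _ = (K * (W ^ D₁) ^ K * E * W ^ D₁) * ε := by field_simp
      _ ≤ V * ε := mul_le_mul_of_nonneg_right e1 hε
  have l1 := lb β b hn1 hbd
  have l2 := lb β' b' hn2 hbd'
  -- `F₂`
  have l3 : 2 ^ gb c * |eval b (F₂ c) - eval b' (F₂ c)| ≤ V * ε * 2 ^ s := by
    have e2 := H.p.lip (l := c) le_rfl hB (δ := W ^ D₁ * ε) (by positivity)
      (β := b) (β' := b')
      (fun k hk => ((hn1 k hk).2.2).trans (div_le_div_of_nonneg_right hDn (by positivity)))
      (fun k hk => ((hn2 k hk).2.2).trans (div_le_div_of_nonneg_right hDn (by positivity)))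
      (fun k hk => (hdf k hk).trans (div_le_div_of_nonneg_right
        (mul_le_mul_of_nonneg_right hDd hε) (by positivity)))
    have e3 : K * (W ^ D₁) ^ K * E * (W ^ D₁ * ε) ≤ V * ε := by
      calc K * (W ^ D₁) ^ K * E * (W ^ D₁ * ε) = (K * (W ^ D₁) ^ K * E * W ^ D₁) * ε := by ring
        _ ≤ V * ε := mul_le_mul_of_nonneg_right e1 hε
    have e4 : |eval b (F₂ c) - eval b' (F₂ c)| ≤ V * ε / 2 ^ g₂ c :=
      e2.trans (div_le_div_of_nonneg_right e3 (by positivity))
    calc 2 ^ gb c * |eval b (F₂ c) - eval b' (F₂ c)| ≤ (2 ^ s * 2 ^ g₂ c) * (V * ε / 2 ^ g₂ c) :=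
          mul_le_mul hs e4 (abs_nonneg _) (by positivity)
      _ = V * ε * 2 ^ s := by field_simp
  have l4 : 2 ^ gb c * |eval β (F₁ c) - eval β' (F₁ c)| ≤ V * ε := by
    refine htop.trans (mul_le_mul_of_nonneg_right (hdc.trans ?_) hε)
    rw [hV]
    exact pw_mono hW4 (by omega)
  have e : (2 ^ gb c * (eval β (F₁ c) - eval β (Fb c)) -
      2 ^ gb c * (eval b (F₂ c) - eval b (Fb c))) -
      (2 ^ gb c * (eval β' (F₁ c) - eval β' (Fb c)) -
        2 ^ gb c * (eval b' (F₂ c) - eval b' (Fb c))) =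
      2 ^ gb c * (eval β (F₁ c) - eval β' (F₁ c)) + 2 ^ gb c * (eval b (Fb c) - eval β (Fb c)) -
      2 ^ gb c * (eval b' (Fb c) - eval β' (Fb c)) -
      2 ^ gb c * (eval b (F₂ c) - eval b' (F₂ c)) := by ring
  rw [e]
  have m1 : ∀ x : ℝ, |2 ^ gb c * x| = 2 ^ gb c * |x| := fun x => by
    rw [abs_mul, abs_of_pos hgc]
  have a1 := abs_sub (2 ^ gb c * (eval β (F₁ c) - eval β' (F₁ c)) +
    2 ^ gb c * (eval b (Fb c) - eval β (Fb c)) - 2 ^ gb c * (eval b' (Fb c) - eval β' (Fb c)))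
    (2 ^ gb c * (eval b (F₂ c) - eval b' (F₂ c)))
  have a2 := abs_sub (2 ^ gb c * (eval β (F₁ c) - eval β' (F₁ c)) +
    2 ^ gb c * (eval b (Fb c) - eval β (Fb c))) (2 ^ gb c * (eval b' (Fb c) - eval β' (Fb c)))
  have a3 := abs_add_le (2 ^ gb c * (eval β (F₁ c) - eval β' (F₁ c)))
    (2 ^ gb c * (eval b (Fb c) - eval β (Fb c)))
  rw [m1] at a1 a2 a3
  rw [m1] at a3
  have h5 : V * ε ≤ V * ε * 2 ^ s := by
    have : 0 ≤ V * ε := by positivity
    nlinarith
  have h6 : W ^ (K + D₁ * K + 1 + D₁ + 1) * ε * 2 ^ s = W * (V * ε * 2 ^ s) := by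
    rw [hV, pow_succ]
    ring
  have h7 : 4 * (V * ε * 2 ^ s) ≤ W * (V * ε * 2 ^ s) :=
    mul_le_mul_of_nonneg_right hW4 (by positivity)
  rw [h6]
  linarith

end Pool.TA35
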